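import Pool.Agent.Y99.GH.DefsTwo

/-!
# Cycles of small codimension on the square of a generic section: definitions
-/

open CategoryTheory AlgebraicGeometry

universe u v

namespace Pool.Agent.Y99.GH

section Alg

variable {K : Type*} [Field K] {V : Type*} [AddCommGroup V] [Module K V] {U : Type*}
  [AddCommGroup U] [Module K U]

/-- `P (ι a) - Q (ι a)` is in `S` for all `a`. -/
def AgreeMod (ι : V →ₗ[K] U) (S : Submodule K U) (P Q : U →ₗ[K] U) : Prop :=
  ∀ a, P (ι a) - Q (ι a) ∈ S

/-- `P` is zero on `S` and the identity on the image of `G` under `ι`. -/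
def ProjectsAlong (ι : V →ₗ[K] U) (G : Submodule K V) (S : Submodule K U) (P : U →ₗ[K] U) :
    Prop :=
  (∀ x ∈ S, P x = 0) ∧ ∀ a ∈ G, P (ι a) = ι a

end Alg

open Pool.Agent.H914 Pool.Agent.H914.VarClass Pool.Agent.H914.VarClass.Obj
  Pool.Agent.H914.WeilCohomology

variable {k : Type u} [Field k] {𝒱 : VarClass k} {ops : CycleOps 𝒱}

/-- Every cycle `z` of codimension `p < dim Y` on `Y × Y` acts on the restrictions of the classes of
`Z` like the restriction `(i × i)^* w` of a cycle `w` of codimension `p` on `Z × Z`, up to classes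
in the vanishing cohomology. -/
def LowCyclesRestrict (W : WeilCohomology.{u, v} ops) {Y Z : 𝒱.Obj} (i : Y ⟶ Z) : Prop :=
  ∀ p < Y.dim, ∀ z, (Y.prod Y).IsCyc p z → ∃ w, (Z.prod Z).IsCyc p w ∧
    AgreeMod (W.map i).toLinearMap (vanishing W i) (act W z) (act W (ops.pull (prodMap i) w))

/-- The decomposition of the middle cohomology of `Y` as the sum of the restrictions from `Z` and
of the vanishing cohomology is given by an algebraic correspondence: some cycle of codimension
`dim Y` on `Y × Y` is zero on the vanishing cohomology and the identity on the restrictions of the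
classes in `H^(dim Y)(Z)`. -/
def VanishingSplits (W : WeilCohomology.{u, v} ops) {Y Z : 𝒱.Obj} (i : Y ⟶ Z) : Prop :=
  ∃ z, (Y.prod Y).IsCyc Y.dim z ∧
    ProjectsAlong (W.map i).toLinearMap (W.gr Z Y.dim) (vanishing W i) (act W z)

/-- The Lefschetz standard conjecture for `X`: for every divisor `D` with hard Lefschetz the operator
`Λ` is induced by a cycle of codimension `dim X - 1` on `X × X`. -/
def ConjB (W : WeilCohomology.{u, v} ops) (X : 𝒱.Obj) : Prop :=
  ∀ D, Pool.Agent.W550.B.IsLefschetzDivisor W X D →
    ∃ z, (X.prod X).IsCyc (X.dim - 1) z ∧ IsLam (W.gr X) X.dim (cup W X D 1) (act W z)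

/-- `E` is a divisor with hard Lefschetz on `Z` and `i : Y ⟶ Z` is a generic section in the class of
`E` for which also the cycles of small codimension restrict. -/
structure IsStep (W : WeilCohomology.{u, v} ops) {Y Z : 𝒱.Obj} (i : Y ⟶ Z) (E : Z.Cycles) :
    Prop where
  lef : Pool.Agent.W550.B.IsLefschetzDivisor W Z E
  gen : IsGenericSection W i E
  low : LowCyclesRestrict W i

end Pool.Agent.Y99.GH
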