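import Pool.Agent.Y99.GH.Four
import Pool.Agent.Y99.GH.DefsSix

/-!
# The conjecture B for a generic section, degree by degree
-/

open CategoryTheory AlgebraicGeometry Finset

universe u v

namespace Pool.Agent.Y99.GH

open Pool.Agent.H914 Pool.Agent.H447 Pool.Agent.H914.VarClass Pool.Agent.H914.VarClass.Obj
  Pool.Agent.H914.WeilCohomology Pool.Agent.W534 Pool.Agent.W550.B

variable {k : Type u} [Field k] {𝒱 : VarClass k} {ops : CycleOps 𝒱}
  {W : WeilCohomology.{u, v} ops} {X Y Z : 𝒱.Obj}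

lemma conjB_iff : ConjB W X ↔ StandardB W X := by
  refine forall_congr' fun D => forall_congr' fun _ => exists_congr fun z =>
    and_congr_right fun _ => ?_
  have h : cup W X D 1 = LinearMap.mulLeft W.K (W.cl X D) := by rw [cup, pow_one]
  rw [h]
  rfl

/-- The inverse on one side is the inverse. -/
lemma lefIso_of_left {D : X.Cycles} (hHL : HardLefschetz W X D) {j : ℕ} (hj : j ≤ X.dim)
    {z : (X.prod X).Cycles} (hz : (X.prod X).IsCyc j z)
    (h : ∀ a ∈ W.gr X j, act W z (W.cl X D ^ (X.dim - j) * a) = a) : LefIso W X D j := by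
  refine ⟨z, hz, h, fun b hb => ?_⟩
  obtain ⟨a, ha, rfl⟩ := (hHL j hj).2 b hb
  rw [LinearMap.pow_mulLeft, LinearMap.mulLeft_apply, h a ha, cup_apply]

lemma lefIso_top {D : X.Cycles} (hHL : HardLefschetz W X D) : LefIso W X D X.dim := by
  obtain ⟨z, hz, hz'⟩ := exists_of_rop (p := X.dim) (by simp) (rop_opAlg (W := W) (X := X)).one
  refine lefIso_of_left hHL le_rfl hz fun a _ => ?_
  rw [act, hz', Nat.sub_self, pow_zero, one_mul]
  rfl

lemma standardB_iff {D : X.Cycles} (hD : IsLefschetzDivisor W X D) :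
    StandardB W X ↔ ∀ j ≤ X.dim, LefIso W X D j := by
  rw [allB_iff hD]
  exact ⟨fun h j hj => (lefMotivic_of_lefschetzB hD.1 hD.2 h j hj).1,
    fun h => lefschetzB_of_lefIso hD.1 hD.2 h⟩

lemma pow_gr {E : Z.Cycles} (hE : Z.IsCyc 1 E) (r : ℕ) : W.cl Z E ^ r ∈ W.gr Z (2 * r) := by
  induction r with
  | zero =>
    rw [pow_zero, mul_zero, W.gr_zero]
    exact Submodule.mem_span_singleton_self _
  | succ r ih =>
    rw [pow_succ]
    have := W.mul_mem ih (W.cl_mem hE)
    rwa [show 2 * r + 2 * 1 = 2 * (r + 1) by ring] at this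

lemma act_pull_prodMap (i : Y ⟶ Z) (w : (Z.prod Z).Cycles) (y : W.H Y) :
    act W (ops.pull (prodMap i) w) y = W.map i (act W w (W.push i y)) := by
  rw [act, W.cl_pull, corr_prodMap]
  rfl

lemma pow_restr (i : Y ⟶ Z) (E : Z.Cycles) (r : ℕ) (a : W.H Z) :
    W.cl Y (ops.pull i E) ^ r * W.map i a = W.map i (W.cl Z E ^ r * a) := by
  rw [W.cl_pull, map_mul, map_pow]

namespace Sec

variable {i : Y ⟶ Z} {E : Z.Cycles} (S : Sec W i E)

include S

lemma push_restr (a : W.H Z) : W.push i (W.map i a) = W.cl Z E * a := S.hs.γι a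

/-- The degrees other than the middle one. -/
lemma restr_surj {l : ℕ} (hl : l ≠ Y.dim) {y : W.H Y} (hy : y ∈ W.gr Y l) :
    ∃ a ∈ W.gr Z l, W.map i a = y := by
  have hs := S.hs
  rcases lt_or_gt_of_ne hl with h1 | h1
  · obtain ⟨a, ha, hay⟩ := hs.surj l h1 y hy
    exact ⟨a, ha, hay⟩
  by_cases h2 : l ≤ 2 * Y.dim
  · obtain ⟨y', hy', hyy⟩ := (hs.hl' (2 * Y.dim - l) (by omega)).2 y
      (by rwa [show 2 * Y.dim - (2 * Y.dim - l) = l by omega])
    obtain ⟨a, ha, hay⟩ := hs.surj (2 * Y.dim - l) (by omega) y' hy'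
    have hay' : W.map i a = y' := hay
    rw [LinearMap.pow_mulLeft, LinearMap.mulLeft_apply, ← hay', pow_restr] at hyy
    refine ⟨_, ?_, hyy⟩
    have := W.mul_mem (pow_gr (W := W) S.cyc (Y.dim - (2 * Y.dim - l))) ha
    rwa [show 2 * (Y.dim - (2 * Y.dim - l)) + (2 * Y.dim - l) = l by omega] at this
  · rw [W.gr_eq_bot Y l (by omega)] at hy
    exact ⟨0, Submodule.zero_mem _, by rw [map_zero, (Submodule.mem_bot _).1 hy]⟩

lemma L_inj {j : ℕ} (hj : j < Z.dim) {a : W.H Z} (ha : a ∈ W.gr Z j) (h : W.cl Z E * a = 0) :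
    a = 0 := by
  apply (S.hl j hj.le).1 a ha
  rw [LinearMap.pow_mulLeft, LinearMap.mulLeft_apply,
    show Z.dim - j = (Z.dim - j - 1) + 1 by omega, pow_succ, mul_assoc, h, mul_zero]

/-- From the ambient variety to the section. -/
lemma lefIso_down {j : ℕ} (hj : j < Y.dim) (h : LefIso W Z E j) :
    LefIso W Y (ops.pull i E) j := by
  have hdim := S.gen.dim
  obtain ⟨w, hw, hw1, -⟩ := h
  refine lefIso_of_left S.hs.hl' hj.le (ops.pull_mem (prodMap i) hw) fun y hy => ?_
  obtain ⟨a, ha, hay⟩ := S.hs.surj j hj y hy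
  have hay' : W.map i a = y := hay
  rw [← hay', pow_restr, act_pull_prodMap, S.push_restr, ← mul_assoc, ← pow_succ',
    show Y.dim - j + 1 = Z.dim - j by omega]
  have h1 := hw1 a ha
  rw [cup_apply] at h1
  rw [h1]

/-- From the section to the ambient variety. -/
lemma lefIso_up (hlow : LowCyclesRestrict W i) {j : ℕ} (hj : j < Y.dim)
    (h : LefIso W Y (ops.pull i E) j) : LefIso W Z E j := by
  have hdim := S.gen.dim
  obtain ⟨z, hz, hz1, -⟩ := h
  obtain ⟨w, hw, hzw⟩ := hlow j hj z hz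
  refine lefIso_of_left S.hl (by omega) hw fun a ha => ?_
  have h1 := hzw (W.cl Z E ^ (Y.dim - j) * a)
  rw [AlgHom.toLinearMap_apply, act_pull_prodMap, S.push_restr, ← mul_assoc, ← pow_succ',
    show Y.dim - j + 1 = Z.dim - j by omega, ← pow_restr] at h1
  have h2 := hz1 _ (W.map_mem i ha)
  rw [cup_apply] at h2
  rw [h2, ← map_sub] at h1
  have h3 : W.push i (W.map i (a - act W w (W.cl Z E ^ (Z.dim - j) * a))) = 0 := h1.2
  rw [S.push_restr] at h3
  have hm : act W w (W.cl Z E ^ (Z.dim - j) * a) ∈ W.gr Z j := by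
    have hLa : W.cl Z E ^ (Z.dim - j) * a ∈ W.gr Z (2 * Z.dim - j) := by
      have := W.mul_mem (pow_gr (W := W) S.cyc (Z.dim - j)) ha
      rwa [show 2 * (Z.dim - j) + j = 2 * Z.dim - j by omega] at this
    have hQ : QOp W Z Z ((j : ℤ) - Z.dim) (W.corr (W.cl _ w)) := QOp.gen (p := j) (by ring) hw
    have h4 := KOp.isHom hQ.kop ((2 * Z.dim - j : ℕ) : ℤ) _ (by rw [grZ_natCast]; exact hLa)
    rwa [show ((2 * Z.dim - j : ℕ) : ℤ) + 2 * ((j : ℤ) - Z.dim) = (j : ℤ) by omega,
      grZ_natCast] at h4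
  exact (sub_eq_zero.1 (S.L_inj (by omega) (Submodule.sub_mem _ ha hm) h3)).symm

/-- The degree below the middle of the ambient variety. -/
lemma lefIso_mid : LefIso W Z E Y.dim ↔ VanishingSplits W i := by
  have hdim := S.gen.dim
  constructor
  · rintro ⟨w, hw, hw1, -⟩
    refine ⟨ops.pull (prodMap i) w, ops.pull_mem _ hw, fun x hx => ?_, fun a ha => ?_⟩
    · have h1 : W.push i x = 0 := hx.2
      rw [act_pull_prodMap, h1]
      have : act W w (0 : W.H Z) = 0 := map_zero _
      rw [this, map_zero]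
    · rw [AlgHom.toLinearMap_apply, act_pull_prodMap, S.push_restr]
      have h1 := hw1 a ha
      rw [cup_apply, show Z.dim - Y.dim = 1 by omega, pow_one] at h1
      rw [h1]
  · rintro ⟨z, hz, h0, h1⟩
    have hpres : ∀ a, ∃ b, W.corr (W.cl _ z) (W.map i a) = W.map i b := by
      intro a
      refine gr_induction (W.isInternal Z) (p := fun a => ∃ b,
        W.corr (W.cl _ z) (W.map i a) = W.map i b) ?_ ?_ a
      · intro l a ha
        by_cases hl : l = Y.dim
        · subst hl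
          exact ⟨a, h1 a ha⟩
        · have hQ : QOp W Y Y 0 (W.corr (W.cl _ z)) := QOp.gen (p := Y.dim) (by simp) hz
          have h4 := KOp.isHom hQ.kop (l : ℤ) _ (by rw [grZ_natCast]; exact W.map_mem i ha)
          rw [show (l : ℤ) + 2 * 0 = (l : ℤ) by ring, grZ_natCast] at h4
          obtain ⟨b, -, hb⟩ := S.restr_surj hl h4
          exact ⟨b, hb.symm⟩
      · rintro a a' ⟨b, hb⟩ ⟨b', hb'⟩
        exact ⟨b + b', by rw [map_add, map_add, map_add, hb, hb']⟩
    obtain ⟨A, hA, hP⟩ := S.exists_amb hz h0 hpres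
    obtain ⟨w, hw, hwA⟩ := hA.exists_cyc (p := Y.dim) (by rw [hdim]; push_cast; ring)
    refine lefIso_of_left S.hl (by omega) hw fun a ha => ?_
    rw [show Z.dim - Y.dim = 1 by omega, pow_one, act, hwA]
    have h2 := h1 a ha
    rw [AlgHom.toLinearMap_apply, act, hP, LinearMap.comp_apply, LinearMap.comp_apply,
      S.push_restr] at h2
    rw [← sub_eq_zero]
    apply S.hs.ι_inj (le_refl _)
    · apply Submodule.sub_mem _ _ ha
      have h3 : W.cl Z E * a ∈ W.gr Z (Y.dim + 2) := by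
        have := W.mul_mem (W.cl_mem S.cyc) ha
        rwa [show 2 * 1 + Y.dim = Y.dim + 2 by ring] at this
      have h4 := KOp.isHom hA.kop ((Y.dim + 2 : ℕ) : ℤ) _ (by rw [grZ_natCast]; exact h3)
      rwa [show ((Y.dim + 2 : ℕ) : ℤ) + 2 * (-1) = (Y.dim : ℤ) by push_cast; ring,
        grZ_natCast] at h4
    · rw [map_sub, sub_eq_zero]
      exact h2

end Sec

/-- The degree zero. -/
lemma lefIso_zero {D : X.Cycles} (hD : IsLefschetzDivisor W X D) : LefIso W X D 0 := by
  have h0 := W.isInternal X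
  obtain ⟨z, hz, hzc⟩ : ∃ z, X.IsCyc X.dim z ∧ W.cl X z = W.cl X D ^ X.dim := by
    obtain ⟨z, hz, h1⟩ := (rop_iff.1 (rop_opAlg.cast (rop_opAlg.pow (rop_mulLeft (W := W) hD.1)
      X.dim) (mul_one _))).exists_cl (p := 0) (q := X.dim) (by simp) X.V.fundCycle_mem
    refine ⟨z, hz, ?_⟩
    rw [← h1, W.cl_fund, LinearMap.pow_mulLeft, LinearMap.mulLeft_apply, mul_one]
  have hq : W.tr X (W.cl X z) = ((X.V.degCycle z : ℚ) : W.K) := W.tr_cl hz
  by_cases h1 : (1 : W.H X) = 0
  · refine ⟨0, SmVar.IsCyc.zero _ _, fun a _ => ?_, fun a _ => ?_⟩ <;>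
    · rw [← one_mul (act W _ _), ← one_mul a]
      simp only [h1, zero_mul, map_zero]
  have hne : W.tr X (W.cl X z) ≠ 0 := by
    intro ht
    apply h1
    have hz0 : W.cl X z = 0 := by
      apply W.nondeg
      intro b
      refine gr_induction h0 (p := fun b => W.tr X (W.cl X z * b) = 0) ?_ ?_ b
      · intro l b hb
        by_cases hl : l = 0
        · subst hl
          rw [W.gr_zero, Submodule.mem_span_singleton] at hb
          obtain ⟨c, rfl⟩ := hb
          rw [mul_smul_comm, mul_one, map_smul, ht, smul_zero]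
        · exact W.tr_eq_zero (W.mul_mem (W.cl_mem hz) hb) (by omega)
      · intro b b' hb hb'
        rw [mul_add, map_add, hb, hb', add_zero]
    have h1m : (1 : W.H X) ∈ W.gr X 0 := by
      rw [W.gr_zero]; exact Submodule.mem_span_singleton_self _
    exact (hD.2 0 (by omega)).1 1 h1m (by
      rw [LinearMap.pow_mulLeft, LinearMap.mulLeft_apply, Nat.sub_zero, ← hzc, hz0, zero_mul])
  refine lefIso_of_left hD.2 (Nat.zero_le _) (z := (X.V.degCycle z)⁻¹ • (X.prod X).V.fundCycle)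
    (((X.prod X).V.fundCycle_mem).smul _) fun a ha => ?_
  rw [W.gr_zero, Submodule.mem_span_singleton] at ha
  obtain ⟨c, rfl⟩ := ha
  have e1 : W.corr (1 : W.H (X.prod X)) (W.cl X z) = W.tr X (W.cl X z) • (1 : W.H X) := by
    have h1m : (1 : W.H X) ∈ W.gr X 0 := by
      rw [W.gr_zero]; exact Submodule.mem_span_singleton_self _
    have := corr_tmul (W := W) (1 : W.H X) h1m (W.cl_mem hz)
    rw [map_one, map_one, one_mul, one_mul, zero_mul, pow_zero, one_mul] at this
    exact this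
  have e2 : act W ((X.V.degCycle z)⁻¹ • (X.prod X).V.fundCycle) (W.cl X z) = (1 : W.H X) := by
    rw [act, cl_smul, W.cl_fund, corr_smul, LinearMap.smul_apply, e1, smul_smul, hq, Rat.cast_inv,
      inv_mul_cancel₀ (by rwa [← hq]), one_smul]
  rw [Nat.sub_zero, mul_smul_comm, mul_one, map_smul, ← hzc, e2]

/-- The conjecture B for curves. -/
lemma standardB_curve (h : X.dim = 1) : StandardB W X := by
  intro D hD
  apply lefschetzB_of_lefIso hD.1 hD.2
  intro n hn
  rcases Nat.le_one_iff_eq_zero_or_eq_one.1 (by omega : n ≤ 1) with rfl | rfl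
  · exact lefIso_zero hD
  · rw [← h]; exact lefIso_top hD.2

/-- **The conjecture B for a generic section, degree by degree.** -/
theorem main_six {i : Y ⟶ Z} {E : Z.Cycles} (hE : IsLefschetzDivisor W Z E)
    (hY : IsGenericSection W i E) (hlow : LowCyclesRestrict W i) :
    (∀ j < Y.dim, (LefIso W Z E j ↔ LefIso W Y (ops.pull i E) j)) ∧
    (LefIso W Z E Y.dim ↔ VanishingSplits W i) ∧
    (ConjB W Z ↔ ConjB W Y ∧ VanishingSplits W i) := by
  rw [conjB_iff, conjB_iff]
  have S : Sec W i E := ⟨hE.1, hE.2, hY⟩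
  have hdim := S.gen.dim
  have hEY : IsLefschetzDivisor W Y (ops.pull i E) := ⟨pull_mem_one S.cyc, S.hs.hl'⟩
  have h1 : ∀ j < Y.dim, (LefIso W Z E j ↔ LefIso W Y (ops.pull i E) j) := fun j hj =>
    ⟨S.lefIso_down hj, S.lefIso_up hlow hj⟩
  refine ⟨h1, S.lefIso_mid, ?_⟩
  rw [standardB_iff hE, standardB_iff hEY]
  constructor
  · intro h
    refine ⟨fun j hj => ?_, S.lefIso_mid.1 (h _ (by omega))⟩
    rcases eq_or_lt_of_le hj with rfl | hj
    · exact lefIso_top hEY.2
    · exact (h1 j hj).1 (h j (by omega))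
  · rintro ⟨h, hV⟩ j hj
    by_cases h2 : j < Y.dim
    · exact (h1 j h2).2 (h j h2.le)
    by_cases h3 : j = Y.dim
    · subst h3
      exact S.lefIso_mid.2 hV
    · obtain rfl : j = Z.dim := by omega
      exact lefIso_top hE.2

/-- **The conjecture B and a tower of generic sections.** -/
theorem main_tower (m : ℕ) : ∀ (Y : ℕ → 𝒱.Obj) (i : ∀ r, Y (r + 1) ⟶ Y r)
    (E : ∀ r, (Y r).Cycles), (∀ r < m, IsStep W (i r) (E r)) → (Y m).dim = 1 →
    (ConjB W (Y 0) ↔ ∀ r < m, VanishingSplits W (i r)) := by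
  induction m with
  | zero =>
    intro Y i E _ hdim
    exact ⟨fun _ r hr => absurd hr (Nat.not_lt_zero _), fun _ => conjB_iff.2 (standardB_curve hdim)⟩
  | succ m ih =>
    intro Y i E hstep hdim
    have h0 := hstep 0 (Nat.succ_pos _)
    have h1 := ih (fun r => Y (r + 1)) (fun r => i (r + 1)) (fun r => E (r + 1))
      (fun r hr => hstep (r + 1) (by omega)) hdim
    rw [(main_six h0.lef h0.gen h0.low).2.2, h1]
    constructor
    · rintro ⟨h2, h3⟩ r hr
      rcases r with _ | r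
      · exact h3
      · exact h2 r (by omega)
    · intro h
      exact ⟨fun r hr => h (r + 1) (by omega), h 0 (Nat.succ_pos _)⟩

end Pool.Agent.Y99.GH
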