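import Pool.Agent.Y99.GH.Poly
import Pool.Agent.H578R3.MomB
import Pool.Agent.H447R3.AoC

/-!
# The lowering operator from surjectivity on numerically trivial classes
-/

open Polynomial Finset

namespace Pool.Agent.Y99.GH

open Pool.Agent.H914 Pool.Agent.H447 Pool.Agent.H578R3.Mom

section Ring

variable {A : Type*} [Ring A]

lemma ring_one {g L y : A} (h : L * y + y * L = g * L + L * g) :
    (g - y) * L = -(L * (g - y)) := by
  have h2 : (g - y) * L + L * (g - y) = (g * L + L * g) - (L * y + y * L) := by noncomm_ring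
  rw [h, sub_self] at h2
  exact eq_neg_of_add_eq_zero_left h2

lemma ring_two {g y : A} (h : g * g = 1) :
    (g - y) * (g - y) - 1 = -(g * y) + -(y * g) + y * y := by
  rw [← h]; noncomm_ring

lemma ring_three {L u g y : A} (h1 : L * u + u * L = y) (h2 : g * L = -(L * g)) :
    y * g = L * (u * g) - (u * g) * L := by
  rw [mul_assoc u g L, h2, ← h1]; noncomm_ring

end Ring

variable {K : Type*} [Field K] [CharZero K] {V : Type*} [AddCommGroup V] [Module K V]
  {gr : ℕ → Submodule K V} {n : ℕ} {L : Module.End K V}
  {R : ℤ → Module.End K V → Prop}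

/-- Polynomials of operators intertwined up to numerically trivial operators. -/
lemma num_ev (hR : OpAlg gr R) {h : DirectSum.IsInternal gr} {T T' : Module.End K V}
    (hT : R 0 T) (hT' : R 0 T') (hrel : NumR h R 1 (T * L - L * T')) (q : ℚ[X]) :
    NumR h R 1 (ev T q * L - L * ev T' q) := by
  induction q using Polynomial.induction_on' with
  | add a b ha hb =>
    have e : ev T (a + b) * L - L * ev T' (a + b) =
        (ev T a * L - L * ev T' a) + (ev T b * L - L * ev T' b) := by
      rw [map_add, map_add]; noncomm_ring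
    rw [e]
    exact NumR.add hR ha hb
  | monomial k c =>
    have e : ev T (monomial k c) * L - L * ev T' (monomial k c) =
        ((c : K) • (1 : Module.End K V)) * (T ^ k * L - L * T' ^ k) := by
      rw [← C_mul_X_pow_eq_monomial, map_mul, map_mul, map_pow, map_pow, ev_X, ev_X, ev_C, ev_C]
      simp only [mul_sub, smul_mul_assoc, mul_smul_comm, one_mul]
    rw [e]
    exact NumR.cast (NumR.mul_left hR (hR.smul c hR.one) (num_pow hR hT hT' hrel k)) (by ring)

variable [Module.Finite K V]

/-- Numerically trivial operators of degree zero are nilpotent. -/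
lemma num_nilp (hR : OpAlg gr R) {h : DirectSum.IsInternal gr} (hpar : R 0 (par h))
    {x : Module.End K V} (hx : NumR h R 0 x) : IsNilpotent x := by
  apply isNilpotent_of_trace_pow
  intro k
  rw [pow_succ']
  exact trace_num hR hpar hx (hR.cast (hR.pow hx.1 k) (by simp))

/-- An inverse of an operator whose square is one up to a numerically trivial operator. -/
lemma exists_inv (hR : OpAlg gr R) {h : DirectSum.IsInternal gr} (hpar : R 0 (par h))
    {g : Module.End K V} (hg : R 0 g) (hx : NumR h R 0 (g * g - 1)) :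
    ∃ g', R 0 g' ∧ g' * g = 1 := by
  obtain ⟨N, hN⟩ := num_nilp hR hpar hx
  set x := g * g - 1 with hxdef
  have hxR : R 0 x := hx.1
  set s := ∑ i ∈ range N, (-x) ^ i with hs
  have hsR : R 0 s := hR.sum fun i _ => hR.cast (hR.pow (hR.neg hxR) i) (by simp)
  refine ⟨s * g, hR.cast (hR.mul hsR hg) (by ring), ?_⟩
  have h1 : s * (-x - 1) = (-x) ^ N - 1 := geom_sum_mul (-x) N
  have h2 : (-x) ^ N = 0 := by rw [neg_pow, hN, mul_zero]
  rw [h2, zero_sub] at h1
  have h3 : g * g = -(-x - 1) := by rw [hxdef]; abel
  rw [mul_assoc, h3, mul_neg, h1, neg_neg]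

/-- **The key argument.** If the parity operator is in the algebra and `y ↦ L y + y L` maps the
numerically trivial operators of degree zero onto those of degree one, then the lowering operator
has super trace zero against the numerically trivial operators of degree one. -/
theorem trace_lower (hR : OpAlg gr R) (h : DirectSum.IsInternal gr)
    (hL : R 1 L) (hpar : R 0 (par h))
    {f : Module.End K V} (t : Sl2 (wt h n) L f)
    (hsurj : ∀ y, NumR h R 1 y → ∃ y', NumR h R 0 y' ∧ L * y' + y' * L = y)
    {z : Module.End K V} (hz : R (-1) z)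
    (hrel : NumR h R 1 ((L * z - z * L) * L - L * ((L * z - z * L) + 2)))
    {y : Module.End K V} (hy : NumR h R 1 y) :
    LinearMap.trace K V (f * y) = 0 := by
  have hLh : IsHom gr 2 L := by simpa using hR.hom hL
  set T := L * z - z * L with hT
  have hTR : R 0 T :=
    hR.sub (hR.cast (hR.mul hL hz) (by ring)) (hR.cast (hR.mul hz hL) (by ring))
  have hT2 : R 0 (T + 2) := by
    apply hR.add hTR
    have := hR.add hR.one hR.one
    rwa [one_add_one_eq_two] at this
  have hstep : ∀ k : ℕ, LinearMap.trace K V (T ^ k * T) =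
      LinearMap.trace K V ((z * L) * ((T + 2) ^ k - T ^ k)) := fun k =>
    trace_step hR hpar hz hTR hT2 hrel k
  clear_value T
  -- the sign operator up to numerically trivial operators
  obtain ⟨q, hq1, hq2⟩ := exists_sign hstep
  set g := ev T q with hg
  have hgR : R 0 g := hR.ev hTR q
  have hgL : NumR h R 1 (g * L + L * g) := by
    have h1 := num_ev hR hTR hT2 hrel q
    rw [hq2, mul_neg, sub_neg_eq_add] at h1
    exact h1
  clear_value g
  -- the exact sign operator
  obtain ⟨y₀, hy₀, hy₀L⟩ := hsurj _ hgL
  have hanti := ring_one hy₀L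
  have hsq : NumR h R 0 ((g - y₀) * (g - y₀) - 1) := by
    rw [ring_two hq1]
    refine NumR.add hR (NumR.add hR (NumR.neg hR ?_) (NumR.neg hR ?_)) ?_
    · exact NumR.cast (NumR.mul_left hR hgR hy₀) (by ring)
    · exact NumR.cast (NumR.mul_right hR hy₀ hgR) (by ring)
    · exact NumR.cast (NumR.mul_left hR hy₀.1 hy₀) (by ring)
  have hR' : R 0 (g - y₀) := hR.sub hgR hy₀.1
  obtain ⟨g', hg', hgg⟩ := exists_inv hR hpar hR' hsq
  -- commutators
  obtain ⟨u, hu, huL⟩ := hsurj _ (NumR.cast (NumR.mul_right hR hy hg') (by ring))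
  have h1 := ring_three huL hanti
  rw [mul_assoc, hgg, mul_one] at h1
  set v := u * (g - y₀) with hv
  have hvN : NumR h R 0 v := NumR.cast (NumR.mul_right hR hu hR') (by ring)
  clear_value v
  have hvh : IsHom gr 0 v := by simpa using hR.hom hvN.1
  have h2 : LinearMap.trace K V (f * y) = - LinearMap.trace K V (v * wt h n) := by
    rw [h1, ← t.ef, mul_sub f, mul_sub v, map_sub, map_sub, ← mul_assoc f v L,
      LinearMap.trace_mul_comm K (f * v) L, ← mul_assoc L f v, ← mul_assoc f L v,
      LinearMap.trace_mul_comm K (L * f) v, LinearMap.trace_mul_comm K (f * L) v]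
    ring
  have hvw : Commute v (wt h n) := by
    have := hvh.wt_comm h n
    rw [Int.cast_zero, zero_smul, add_zero] at this
    exact this.symm
  rw [h2, (LinearMap.isNilpotent_trace_of_isNilpotent
    (hvw.isNilpotent_mul_right (num_nilp hR hpar hvN))).eq_zero, neg_zero]

/-- **The lowering operator.** -/
theorem nilp_of_surj (hR : OpAlg gr R) (h : DirectSum.IsInternal gr)
    (hbd : ∀ i, 2 * n + 1 ≤ i → gr i = ⊥) (hL : R 1 L) (hpar : R 0 (par h))
    {f : Module.End K V} (t : Sl2 (wt h n) L f)
    (hrat : ∀ x y, R (-1) x → R 1 y → ∃ q : ℚ, LinearMap.trace K V (par h * (x * y)) = q)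
    (hsurj : ∀ y, NumR h R 1 y → ∃ y', NumR h R 0 y' ∧ L * y' + y' * L = y) :
    ∃ z, R (-1) z ∧ IsNilpotent ((L * z - z * L) - wt h n) := by
  have hLh : IsHom gr 2 L := by simpa using hR.hom hL
  obtain ⟨z, hz, hrel⟩ := exists_sol hR h hL hpar hrat
  refine ⟨z, hz, ?_⟩
  obtain ⟨q, -, hq, hnil⟩ := moment hR h hbd hL hpar hz hrel
  apply hnil
  have h1 := trace_lower hR h hL hpar t hsurj hz hrel hrel
  -- the traces
  have e2 : LinearMap.trace K V ((L * z - z * L) * wt h n) =
      2 * LinearMap.trace K V (z * L) := by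
    rw [trace_comm_wt h n hLh, LinearMap.trace_mul_comm]
    norm_num
  have e3 : LinearMap.trace K V (wt h n * wt h n) = 2 * LinearMap.trace K V (f * L) := by
    have h3 := trace_comm_wt h n (v := f) hLh
    rw [t.ef, LinearMap.trace_mul_comm K L f] at h3
    rw [h3]
    norm_num
  set T := L * z - z * L with hT
  have e4 : LinearMap.trace K V (f * (T * L - L * (T + 2))) =
      LinearMap.trace K V (T * wt h n) - 2 * LinearMap.trace K V (f * L) := by
    have a1 : f * (T * L - L * (T + 2)) = f * T * L - f * L * T - 2 * (f * L) := by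
      noncomm_ring
    have a2 : LinearMap.trace K V (f * T * L) = LinearMap.trace K V (T * (L * f)) := by
      rw [LinearMap.trace_mul_comm, ← mul_assoc, LinearMap.trace_mul_comm]
    have a3 : LinearMap.trace K V (f * L * T) = LinearMap.trace K V (T * (f * L)) := by
      rw [LinearMap.trace_mul_comm]
    rw [a1, map_sub, map_sub, a2, a3, ← map_sub, ← mul_sub, t.ef, two_mul, map_add, ← two_mul]
  rw [e4, e2, ← e3] at h1
  have h5 : LinearMap.trace K V (wt h n * wt h n) - 2 * LinearMap.trace K V (z * L) = 0 := by
    linear_combination -h1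
  rw [h5] at hq
  exact_mod_cast hq.symm

end Pool.Agent.Y99.GH
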