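import Pool.Agent.W534.HDefs
import Pool.Agent.W550.B.AddDefs
import Pool.Agent.H447R3.SpDefs

/-!
# Generic hyperplane sections: definitions
-/

open CategoryTheory AlgebraicGeometry

universe u v

namespace Pool.Agent.Y99.GH

open Pool.Agent.H914 Pool.Agent.H914.VarClass Pool.Agent.H914.VarClass.Obj
  Pool.Agent.H914.WeilCohomology

variable {k : Type u} [Field k] {𝒱 : VarClass k} {ops : CycleOps 𝒱}

/-- The Lefschetz standard conjecture for `X`: the operator `Λ` is algebraic for every divisor on
`X` which satisfies hard Lefschetz. -/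
def StandardB (W : WeilCohomology.{u, v} ops) (X : 𝒱.Obj) : Prop :=
  ∀ D, Pool.Agent.W550.B.IsLefschetzDivisor W X D → LefschetzB W X D

/-- The vanishing cohomology of `Y` with respect to the morphism `i` from `Y` to `Z`: the kernel
of the push-forward on the middle cohomology `H^(dim Y)(Y)`. -/
noncomputable def vanishing (W : WeilCohomology.{u, v} ops) {Y Z : 𝒱.Obj} (i : Y ⟶ Z) :
    Submodule W.K (W.H Y) :=
  W.gr Y Y.dim ⊓ LinearMap.ker (W.push i)

/-- The morphism `i × i` from `Y × Y` to `Z × Z`. -/
noncomputable def prodMap {Y Z : 𝒱.Obj} (i : Y ⟶ Z) : Y.prod Y ⟶ Z.prod Z :=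
  Obj.lift (fst Y Y ≫ i) (snd Y Y ≫ i)

/-- The action of the cycle `z` on `Y × Y` on the cohomology of `Y`. -/
noncomputable def act (W : WeilCohomology.{u, v} ops) {Y : 𝒱.Obj} (z : (Y.prod Y).Cycles) :
    W.H Y →ₗ[W.K] W.H Y :=
  W.corr (W.cl (Y.prod Y) z)

/-- The correspondence `z` on `Y × Y` acts on the vanishing cohomology as a scalar. -/
def IsScalar (W : WeilCohomology.{u, v} ops) {Y Z : 𝒱.Obj} (i : Y ⟶ Z)
    (z : (Y.prod Y).Cycles) : Prop :=
  ∃ c : W.K, ∀ x ∈ vanishing W i, act W z x = c • x

/-- The correspondence `z` on `Y × Y` maps the classes which are restrictions of classes on `Z` to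
classes of the same kind. -/
def Preserves (W : WeilCohomology.{u, v} ops) {Y Z : 𝒱.Obj} (i : Y ⟶ Z)
    (z : (Y.prod Y).Cycles) : Prop :=
  ∀ a : W.H Z, ∃ b : W.H Z, act W z (W.map i a) = W.map i b

/-- The cycle `c Δ + (i × i)^* w` on `Y × Y`, where `Δ` is the diagonal. -/
noncomputable def diagPlus (ops : CycleOps 𝒱) {Y Z : 𝒱.Obj} (i : Y ⟶ Z) (c : ℚ)
    (w : (Z.prod Z).Cycles) : (Y.prod Y).Cycles :=
  c • ops.push (diag Y) Y.V.fundCycle + ops.pull (prodMap i) w

/-- The class of the cycle `z` on `Y × Y` is the sum of a rational multiple of the class of the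
diagonal and of the restriction of an algebraic class of codimension `dim Y` on `Z × Z`. -/
def IsRestriction (W : WeilCohomology.{u, v} ops) {Y Z : 𝒱.Obj} (i : Y ⟶ Z)
    (z : (Y.prod Y).Cycles) : Prop :=
  ∃ (c : ℚ) (w : (Z.prod Z).Cycles), (Z.prod Z).IsCyc Y.dim w ∧
    W.cl (Y.prod Y) z = W.cl (Y.prod Y) (diagPlus ops i c w)

/-- The class of `Y` on `Z` is the class of the divisor `E`. -/
def HasClass (W : WeilCohomology.{u, v} ops) {Y Z : 𝒱.Obj} (i : Y ⟶ Z) (E : Z.Cycles) : Prop :=
  W.cl Z (ops.push i Y.V.fundCycle) = W.cl Z E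

/-- Every correspondence of degree zero on `Y` which acts as a scalar on the vanishing cohomology
and preserves the restrictions from `Z` is, up to homological equivalence, the sum of a multiple of
the diagonal and of the restriction of a cycle from `Z × Z`. -/
def CorrespondencesRestrict (W : WeilCohomology.{u, v} ops) {Y Z : 𝒱.Obj} (i : Y ⟶ Z) : Prop :=
  ∀ z, (Y.prod Y).IsCyc Y.dim z → IsScalar W i z → Preserves W i z → IsRestriction W i z

/-- `i : Y ⟶ Z` behaves like the geometric generic member of the linear system of the divisor `E`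
on `Z`: the class of `Y` on `Z` is the class of `E`, the weak Lefschetz theorem holds, there is
nonzero vanishing cohomology, and every correspondence of degree zero on `Y` which acts as a scalar
on the vanishing cohomology and preserves the restrictions from `Z` is, up to homological
equivalence, the sum of a multiple of the diagonal and of the restriction of a cycle from
`Z × Z`. -/
structure IsGenericSection (W : WeilCohomology.{u, v} ops) {Y Z : 𝒱.Obj} (i : Y ⟶ Z)
    (E : Z.Cycles) : Prop where
  dim : Z.dim = Y.dim + 1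
  cls : HasClass W i E
  lef : Pool.Agent.W534.WeakLefschetz W i
  van : vanishing W i ≠ ⊥
  restr : CorrespondencesRestrict W i

end Pool.Agent.Y99.GH
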