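import Pool.Agent.Y99.GH.DefsTwo

/-!
# Classes of varieties with generic sections: definitions
-/

open CategoryTheory AlgebraicGeometry

universe u v

namespace Pool.Agent.Y99.GH

open Pool.Agent.H914 Pool.Agent.H914.VarClass Pool.Agent.H914.VarClass.Obj
  Pool.Agent.H914.WeilCohomology Pool.Agent.W550.B

variable {k : Type u} [Field k] {𝒱 : VarClass k} {ops : CycleOps 𝒱}

/-- The product `X × X` has a generic section in the class of `D × X + X × D`. -/
def SquareHasSection (W : WeilCohomology.{u, v} ops) (X : 𝒱.Obj) (D : X.Cycles) : Prop :=
  ∃ (Y : 𝒱.Obj) (i : Y ⟶ X.prod X), IsGenericSection W i (sumDivisor ops D)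

/-- The class of varieties contains a curve, and every `X` in the class of positive dimension has a
divisor `D` with hard Lefschetz such that `X × X` has a generic section in the class of
`D × X + X × D`. -/
def HasSections (W : WeilCohomology.{u, v} ops) : Prop :=
  (∃ C : 𝒱.Obj, C.dim = 1) ∧
    ∀ X : 𝒱.Obj, 1 ≤ X.dim → ∃ D, IsLefschetzDivisor W X D ∧ SquareHasSection W X D

/-- The Lefschetz standard conjecture for all varieties of the class. -/
def AllB (W : WeilCohomology.{u, v} ops) : Prop := ∀ X, StandardB W X

/-- The Kunneth standard conjecture for all varieties of the class. -/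
def AllC (W : WeilCohomology.{u, v} ops) : Prop := ∀ X j, KunnethOne W X j

/-- The sign conjecture for all varieties of the class. -/
def AllSign (W : WeilCohomology.{u, v} ops) : Prop := ∀ X, SignConj W X

/-- For all varieties `X` of the class with `dim X` even (`e = 0`), respectively odd (`e = 1`), and
`dim X ≥ r`, the one Kunneth projector onto `H^(dim X - r)(X)` is algebraic. -/
def AllAt (W : WeilCohomology.{u, v} ops) (e r : ℕ) : Prop :=
  ∀ X : 𝒱.Obj, X.dim % 2 = e → r ≤ X.dim → KunnethOne W X (X.dim - r)

end Pool.Agent.Y99.GH
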