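import Pool.Agent.Y99.GH.Defs

/-!
# Isomorphisms of motives, splittings and left inverses: definitions
-/

open CategoryTheory AlgebraicGeometry

universe u v

namespace Pool.Agent.Y99.GH

section Alg

variable {K : Type*} [Field K] {V : Type*} [AddCommGroup V] [Module K V]

/-- `T (L a) = a` for all `a` in the graded piece `gr i`. -/
def LeftInvOn (gr : ℕ → Submodule K V) (i : ℕ) (L T : V →ₗ[K] V) : Prop :=
  ∀ a ∈ gr i, T (L a) = a

/-- `T` kills the elements of `gr i` which are killed by `M`, and `T (L b) = b` for `b` in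
`gr (i - 2)`. -/
def SplitsOff (gr : ℕ → Submodule K V) (i : ℕ) (M L T : V →ₗ[K] V) : Prop :=
  (∀ a ∈ gr i, M a = 0 → T a = 0) ∧ ∀ j, j + 2 = i → LeftInvOn gr j L T

/-- The operator `T` is the identity on the pieces `gr j` with `p j`, and zero on the others. -/
def ProjectsOn (gr : ℕ → Submodule K V) (p : ℕ → Prop) (T : V →ₗ[K] V) : Prop :=
  ∀ j, ∀ a ∈ gr j, (p j → T a = a) ∧ (¬ p j → T a = 0)

end Alg

open Pool.Agent.H914 Pool.Agent.H914.VarClass Pool.Agent.H914.VarClass.Obj
  Pool.Agent.H914.WeilCohomology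

variable {k : Type u} [Field k] {𝒱 : VarClass k} {ops : CycleOps 𝒱}

/-- The cup product with `ξ ^ m`, where `ξ` is the class of `D`. -/
noncomputable def cup (W : WeilCohomology.{u, v} ops) (X : 𝒱.Obj) (D : X.Cycles) (m : ℕ) :
    W.H X →ₗ[W.K] W.H X :=
  LinearMap.mulLeft W.K (W.cl X D ^ m)

/-- Statement (a) in degree `n`: the morphism `𝔥^n(X) ⟶ 𝔥^(2d-n)(X)(d-n)`, `d = dim X`, given by the
cup product with `ξ ^ (d - n)`, `ξ` the class of `D`, is an isomorphism of homological motives: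
some algebraic cycle of codimension `n` on `X × X` induces the inverse of the map
`ξ ^ (d - n) : H^n(X) → H^(2d-n)(X)`. -/
def LefIso (W : WeilCohomology.{u, v} ops) (X : 𝒱.Obj) (D : X.Cycles) (n : ℕ) : Prop :=
  ∃ z, (X.prod X).IsCyc n z ∧ LeftInvOn (W.gr X) n (cup W X D (X.dim - n)) (act W z) ∧
    LeftInvOn (W.gr X) (2 * X.dim - n) (act W z) (cup W X D (X.dim - n))

/-- Statement (b) in degree `n`: the primitive decomposition `H^n(X) = P^n(X) ⊕ ξ H^(n-2)(X)`, with
`P^n(X)` the kernel of `ξ ^ (d - n + 1)` on `H^n(X)`, is a decomposition of homological motives: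
some algebraic cycle of codimension `d - 1` on `X × X` kills `P^n(X)` and sends `ξ b` to `b` for `b`
in `H^(n-2)(X)`. -/
def PrimSplit (W : WeilCohomology.{u, v} ops) (X : 𝒱.Obj) (D : X.Cycles) (n : ℕ) : Prop :=
  ∃ z, (X.prod X).IsCyc (X.dim - 1) z ∧
    SplitsOff (W.gr X) n (cup W X D (X.dim - n + 1)) (cup W X D 1) (act W z)

/-- The statements (a) and (b) in all degrees `n ≤ dim X`. -/
def LefMotivic (W : WeilCohomology.{u, v} ops) (X : 𝒱.Obj) (D : X.Cycles) : Prop :=
  ∀ n ≤ X.dim, LefIso W X D n ∧ PrimSplit W X D n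

/-- The cup product `H^n(Z) → H^(n+2)(Z)` with the class of `E` has an algebraic left inverse: some
algebraic cycle of codimension `dim Z - 1` on `Z × Z` sends `ξ a` to `a` for `a` in `H^n(Z)`, where
`ξ` is the class of `E`. -/
def LeftInverse (W : WeilCohomology.{u, v} ops) (Z : 𝒱.Obj) (E : Z.Cycles) (n : ℕ) : Prop :=
  ∃ z, (Z.prod Z).IsCyc (Z.dim - 1) z ∧ LeftInvOn (W.gr Z) n (cup W Z E 1) (act W z)

/-- The Kunneth projector of `Y` onto `H^j(Y)` is induced by an algebraic cycle on `Y × Y`. -/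
def KunnethOne (W : WeilCohomology.{u, v} ops) (Y : 𝒱.Obj) (j : ℕ) : Prop :=
  ∃ z, (Y.prod Y).IsCyc Y.dim z ∧ ProjectsOn (W.gr Y) (fun l => l = j) (act W z)

/-- The sign conjecture: the projector onto the even cohomology of `X` is induced by an algebraic
cycle on `X × X`. -/
def SignConj (W : WeilCohomology.{u, v} ops) (X : 𝒱.Obj) : Prop :=
  ∃ z, (X.prod X).IsCyc X.dim z ∧ ProjectsOn (W.gr X) Even (act W z)

/-- The divisor `D × X + X × D` on `X × X`. -/
noncomputable def sumDivisor (ops : CycleOps 𝒱) {X : 𝒱.Obj} (D : X.Cycles) : (X.prod X).Cycles :=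
  ops.pull (fst X X) D + ops.pull (snd X X) D

end Pool.Agent.Y99.GH
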