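import Pool.Agent.Y99.GH.Three
import Pool.Agent.Y99.GH.DefsFour

/-!
# The conjecture C, one Kunneth projector for all varieties, and the conjecture B
-/

open CategoryTheory AlgebraicGeometry Finset

universe u v

namespace Pool.Agent.Y99.GH

open Pool.Agent.H914 Pool.Agent.H447 Pool.Agent.H914.VarClass Pool.Agent.H914.VarClass.Obj
  Pool.Agent.H914.WeilCohomology Pool.Agent.W534 Pool.Agent.W550.B

variable {k : Type u} [Field k] {𝒱 : VarClass k} {ops : CycleOps 𝒱}
  {W : WeilCohomology.{u, v} ops} {X Y Z T : 𝒱.Obj}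

lemma one_ne_of_map (f : X ⟶ Y) (h : (1 : W.H X) ≠ 0) : (1 : W.H Y) ≠ 0 := by
  intro h0
  apply h
  rw [← map_one (W.map f), h0, map_zero]

/-- The cohomology of a variety with a generic section of its square is not zero. -/
lemma one_ne_zero_of_section {D : X.Cycles} (h : SquareHasSection W X D) : (1 : W.H X) ≠ 0 := by
  obtain ⟨Y, i, hY⟩ := h
  obtain ⟨x, -, hx0⟩ := (Submodule.ne_bot_iff _).1 hY.van
  refine one_ne_of_map (i ≫ fst X X) fun h0 => hx0 ?_
  rw [← one_mul x, h0, zero_mul]

/-- A zero-cycle of nonzero degree. -/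
lemma exists_point {D : T.Cycles} (hD : IsLefschetzDivisor W T D) (h1 : (1 : W.H T) ≠ 0) :
    ∃ z, T.IsCyc T.dim z ∧ W.tr T (W.cl T z) ≠ 0 := by
  have h := W.isInternal T
  obtain ⟨z, hz, hzc⟩ : ∃ z, T.IsCyc T.dim z ∧
      W.cl T z = ((LinearMap.mulLeft W.K (W.cl T D)) ^ T.dim) 1 := by
    obtain ⟨z, hz, h1⟩ := (rop_iff.1 (rop_opAlg.cast (rop_opAlg.pow (rop_mulLeft (W := W) hD.1)
      T.dim) (mul_one _))).exists_cl (p := 0) (q := T.dim) (by simp) T.V.fundCycle_mem
    exact ⟨z, hz, by rw [← h1, W.cl_fund]⟩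
  refine ⟨z, hz, fun ht => h1 ?_⟩
  have hz0 : W.cl T z = 0 := by
    apply W.nondeg
    intro b
    refine gr_induction h (p := fun b => W.tr T (W.cl T z * b) = 0) ?_ ?_ b
    · intro l b hb
      by_cases hl : l = 0
      · subst hl
        rw [W.gr_zero, Submodule.mem_span_singleton] at hb
        obtain ⟨c, rfl⟩ := hb
        rw [mul_smul_comm, mul_one, map_smul, ht, smul_zero]
      · exact W.tr_eq_zero (W.mul_mem (W.cl_mem hz) hb) (by omega)
    · intro b b' hb hb'
      rw [mul_add, map_add, hb, hb', add_zero]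
  have h1m : (1 : W.H T) ∈ W.gr T 0 := by
    rw [W.gr_zero]; exact Submodule.mem_span_singleton_self _
  exact (hD.2 0 (by omega)).1 1 h1m (by rw [Nat.sub_zero, ← hzc, hz0])

lemma push_fst_even (a : W.H X) {q : ℕ} {c : W.H T} (hc : c ∈ W.gr T (2 * q)) :
    W.push (fst X T) (W.map (fst X T) a * W.map (snd X T) c) = W.tr T c • a := by
  apply W.tr_ext
  intro d
  rw [W.tr_push, mul_assoc, W.even_comm (W.map_mem _ hc), ← mul_assoc, ← map_mul, W.tr_prod,
    smul_mul_assoc, map_smul, smul_eq_mul, mul_comm]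

/-- The Kunneth projectors of a factor. -/
lemma kunneth_factor {z : T.Cycles} (hz : T.IsCyc T.dim z) (h0 : W.tr T (W.cl T z) ≠ 0) {j : ℕ}
    (hK : KunnethAt W (X.prod T) j) : KunnethAt W X j := by
  rw [kunnethAt_iff_rop] at hK ⊢
  have hq : W.tr T (W.cl T z) = ((T.V.degCycle z : ℚ) : W.K) := W.tr_cl hz
  have hmul : QOp W (X.prod T) (X.prod T) T.dim
      (LinearMap.mulLeft W.K (W.cl (X.prod T) (ops.pull (snd X T) z))) :=
    rop_iff.1 ⟨_, Realized.mulLeft (ops.pull_mem _ hz), rfl⟩
  set Q : Module.End W.K (W.H X) := W.push (fst X T) ∘ₗ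
    (LinearMap.mulLeft W.K (W.cl (X.prod T) (ops.pull (snd X T) z)) ∘ₗ
      (proj (W.isInternal (X.prod T)) j ∘ₗ (W.map (fst X T)).toLinearMap)) with hQ
  have hQR : ROp W X 0 Q := by
    rw [rop_iff]
    exact ((qop_push (fst X T)).comp (hmul.comp ((rop_iff.1 hK).comp (qop_pull _)))).cast (by
      rw [dim_prod]; push_cast; ring)
  have h1 : proj (W.isInternal X) j = (((T.V.degCycle z)⁻¹ : ℚ) : W.K) • Q := by
    apply gr_ext (W.isInternal X)
    intro l a ha
    have e1 : Q a = W.push (fst X T) (W.cl (X.prod T) (ops.pull (snd X T) z) *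
      proj (W.isInternal (X.prod T)) j (W.map (fst X T) a)) := rfl
    rw [LinearMap.smul_apply, e1, map_proj]
    by_cases hl : l = j
    · subst hl
      rw [proj_same _ ha, W.cl_pull,
        W.even_comm (W.map_mem (snd X T) (W.cl_mem hz)), push_fst_even a (W.cl_mem hz), smul_smul, hq, Rat.cast_inv,
        inv_mul_cancel₀ (by rwa [← hq]), one_smul]
    · rw [proj_ne _ ha hl, map_zero, mul_zero, map_zero, smul_zero]
  rw [h1]
  exact rop_opAlg.smul _ hQR

lemma exists_dim (h : ∃ C : 𝒱.Obj, C.dim = 1) : ∀ t ≥ 1, ∃ T : 𝒱.Obj, T.dim = t := by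
  obtain ⟨C, hC⟩ := h
  intro t ht
  induction t, ht using Nat.le_induction with
  | base => exact ⟨C, hC⟩
  | succ t _ ih =>
    obtain ⟨T, hT⟩ := ih
    exact ⟨T.prod C, by rw [dim_prod, hT, hC]⟩

/-- The Kunneth projectors from those of the products. -/
lemma kunneth_shift (hW : HasSections W) {e r : ℕ} (h : AllAt W e r) {j : ℕ} (hj : X.dim ≤ j + r)
    (hj' : (j + r) % 2 = e) : KunnethAt W X j := by
  rcases eq_or_lt_of_le hj with h1 | h1
  · have h2 := h X (by rw [h1]; exact hj') (by omega)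
    rw [kunnethOne_iff, show X.dim - r = j by omega] at h2
    exact h2
  · obtain ⟨T, hT⟩ := exists_dim hW.1 (j + r - X.dim) (by omega)
    obtain ⟨D, hD, hS⟩ := hW.2 T (by omega)
    obtain ⟨z, hz, hz0⟩ := exists_point hD (one_ne_zero_of_section hS)
    have hdim : (X.prod T).dim = j + r := by rw [dim_prod, hT]; omega
    have h2 := h (X.prod T) (by rw [hdim]; exact hj') (by omega)
    rw [kunnethOne_iff, show (X.prod T).dim - r = j by omega] at h2
    exact kunneth_factor hz hz0 h2

lemma kunneth_parity (hW : HasSections W) {e r : ℕ} (h : AllAt W e r) {j : ℕ}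
    (hj : j ≤ 2 * X.dim) (hj' : (j + r) % 2 = e) : KunnethAt W X j := by
  by_cases h1 : X.dim ≤ j
  · exact kunneth_shift hW h (by omega) hj'
  · have h2 : KunnethAt W X (2 * X.dim - j) := kunneth_shift hW h (by omega) (by omega)
    rw [kunnethAt_iff_rop] at h2 ⊢
    have h3 := rop_proj_dual (by omega) h2
    rwa [show 2 * X.dim - (2 * X.dim - j) = j by omega] at h3

lemma proj_bot {j : ℕ} (hj : 2 * X.dim < j) : proj (W.isInternal X) j = 0 := by
  apply gr_ext (W.isInternal X)
  intro l a ha
  by_cases hl : l = j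
  · subst hl
    rw [W.gr_eq_bot X l hj] at ha
    rw [(Submodule.mem_bot _).1 ha, map_zero, map_zero]
  · rw [proj_ne _ ha hl, LinearMap.zero_apply]

/-- The sum of the Kunneth projectors of one parity. -/
lemma sign_of_parity {c : ℕ} (h : ∀ j ≤ 2 * X.dim, (j + c) % 2 = 0 → KunnethAt W X j) :
    SignStd W X := by
  have h0 := W.isInternal X
  set S : Module.End W.K (W.H X) := ∑ j ∈ (range (2 * X.dim + 1)).filter
    (fun j => (j + c) % 2 = 0), proj h0 j with hS
  have hSR : ROp W X 0 S := rop_opAlg.sum fun j hj => by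
    rw [Finset.mem_filter, Finset.mem_range] at hj
    exact kunnethAt_iff_rop.1 (h j (by omega) hj.2)
  have hSa : ∀ l, ∀ a ∈ W.gr X l, S a = if (l + c) % 2 = 0 then a else 0 := by
    intro l a ha
    rw [hS, LinearMap.sum_apply]
    by_cases hl : l ≤ 2 * X.dim
    · split_ifs with hc
      · rw [Finset.sum_eq_single l]
        · exact proj_same h0 ha
        · intro j _ hj
          exact proj_ne h0 ha (Ne.symm hj)
        · intro hn
          exact (hn (Finset.mem_filter.2 ⟨Finset.mem_range.2 (by omega), hc⟩)).elim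
      · apply Finset.sum_eq_zero
        intro j hj
        rw [Finset.mem_filter] at hj
        exact proj_ne h0 ha (by rintro rfl; exact hc hj.2)
    · rw [W.gr_eq_bot X l (by omega)] at ha
      rw [(Submodule.mem_bot _).1 ha]
      simp
  by_cases hc : c % 2 = 0
  · have h1 : evenProj h0 = S := by
      apply gr_ext h0
      intro l a ha
      rw [hSa l a ha, evenProj, scal_apply h0 _ ha]
      by_cases hl : Even l
      · have := Nat.even_iff.1 hl
        rw [if_pos hl, if_pos (by omega), one_smul]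
      · have := Nat.odd_iff.1 (Nat.not_even_iff_odd.1 hl)
        rw [if_neg hl, if_neg (by omega), zero_smul]
    obtain ⟨P, hP, hP'⟩ := exists_of_rop (p := X.dim) (by simp) hSR
    exact ⟨P, hP, isEvenProj_iff.2 (by rw [hP', h1])⟩
  · have h1 : evenProj h0 = 1 - S := by
      apply gr_ext h0
      intro l a ha
      rw [LinearMap.sub_apply, hSa l a ha, evenProj, scal_apply h0 _ ha]
      by_cases hl : Even l
      · have := Nat.even_iff.1 hl
        rw [if_pos hl, if_neg (by omega), one_smul, sub_zero]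
        rfl
      · have := Nat.odd_iff.1 (Nat.not_even_iff_odd.1 hl)
        rw [if_neg hl, if_pos (by omega), zero_smul, Module.End.one_apply, sub_self]
    obtain ⟨P, hP, hP'⟩ := exists_of_rop (p := X.dim) (by simp)
      (rop_opAlg.sub rop_opAlg.one hSR)
    exact ⟨P, hP, isEvenProj_iff.2 (by rw [hP', h1])⟩

lemma standardB_zero (h : X.dim = 0) : StandardB W X := by
  intro D _
  rw [lefschetzB_iff_rop]
  refine ⟨0, rop_opAlg.zero _, ?_⟩
  intro i hi a _ _
  refine ⟨rfl, fun j hj => ?_⟩
  omega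

lemma kunneth_zero (h : X.dim = 0) (j : ℕ) : KunnethAt W X j := by
  rw [kunnethAt_iff_rop]
  by_cases hj : j = 0
  · subst hj
    have : proj (W.isInternal X) 0 = 1 := by
      apply gr_ext (W.isInternal X)
      intro l a ha
      by_cases hl : l = 0
      · subst hl; rw [proj_same _ ha]; rfl
      · rw [W.gr_eq_bot X l (by omega)] at ha
        rw [(Submodule.mem_bot _).1 ha, map_zero, map_zero]
    rw [this]
    exact rop_opAlg.one
  · rw [proj_bot (by omega)]
    exact rop_opAlg.zero 0

/-- **The conjectures for all varieties of a class.** -/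
theorem main_four (hW : HasSections W) :
    List.TFAE [AllC W, AllSign W, AllB W] ∧
    ∀ e r, e ≤ 1 → (AllC W ↔ AllAt W e r) := by
  have h12 : AllB W → AllC W := by
    intro h X j
    rw [kunnethOne_iff]
    rcases Nat.eq_zero_or_pos X.dim with h0 | h0
    · exact kunneth_zero h0 j
    · obtain ⟨D, hD, -⟩ := hW.2 X h0
      exact kunneth_of_lefschetzB hD.1 hD.2 (h X D hD) j
  have h23 : AllC W → AllSign W := by
    intro h X
    rw [signConj_iff]
    exact sign_of_kunneth fun j => kunnethOne_iff.1 (h X j)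
  have h31 : (∀ X : 𝒱.Obj, SignStd W X) → AllB W := by
    intro h X
    rcases Nat.eq_zero_or_pos X.dim with h0 | h0
    · exact standardB_zero h0
    · obtain ⟨D, hD, Y, i, hY⟩ := hW.2 X h0
      exact ((main_one hD hY).out 0 3).2 (h Y)
  constructor
  · tfae_have 3 → 1 := h12
    tfae_have 1 → 2 := h23
    tfae_have 2 → 3 := fun h => h31 fun X => signConj_iff.1 (h X)
    tfae_finish
  · intro e r he
    refine ⟨fun h X _ _ => h X _, fun h => h12 (h31 fun X => ?_)⟩
    exact sign_of_parity (c := r + e) fun j hj hj' => kunneth_parity hW h hj (by omega)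

end Pool.Agent.Y99.GH
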