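import Pool.Agent.H447R3.AoC
import Pool.Agent.H447R3.NumB
import Pool.Agent.H447R3.WtB
import Pool.Agent.W534.QOp

/-!
# The conjecture B from the conjecture C and a left inverse on the product
-/

open CategoryTheory AlgebraicGeometry Finset

universe u v

namespace Pool.Agent.Y99.GH

open Pool.Agent.H914 Pool.Agent.H447 Pool.Agent.H914.VarClass Pool.Agent.H914.VarClass.Obj
  Pool.Agent.H914.WeilCohomology Pool.Agent.W534

section Lin

variable {K : Type*} [Field K] [CharZero K] {V : Type*} [AddCommGroup V] [Module K V]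
  {gr : ℕ → Submodule K V} {n : ℕ} {L : Module.End K V}

/-- The sign operator, acting as `(-1) ^ ⌊i / 2⌋` in degree `i`. -/
noncomputable def sgnOp (h : DirectSum.IsInternal gr) : Module.End K V :=
  scal h (fun i => (((-1 : ℚ) ^ (i / 2) : ℚ) : K))

lemma sgnOp_sq (h : DirectSum.IsInternal gr) : sgnOp h * sgnOp h = 1 := by
  rw [sgnOp, scal_mul, ← scal_one h]
  congr 1
  funext i
  rw [← Rat.cast_mul, ← pow_add, ← two_mul, pow_mul]
  simp

lemma sgnOp_anti (h : DirectSum.IsInternal gr) (hL : IsHom gr 2 L) :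
    sgnOp h * L = -(L * sgnOp h) := by
  apply gr_ext h
  intro i a ha
  have h1 : L a ∈ gr (i + 2) := by
    have := hL (i : ℤ) a (by rw [grZ_natCast]; exact ha)
    rwa [show (i : ℤ) + 2 = ((i + 2 : ℕ) : ℤ) by push_cast; ring, grZ_natCast] at this
  rw [Module.End.mul_apply, LinearMap.neg_apply, Module.End.mul_apply, sgnOp,
    scal_apply h _ h1, scal_apply h _ ha, map_smul, ← neg_smul]
  congr 1
  rw [show (i + 2) / 2 = i / 2 + 1 by omega, pow_succ]
  push_cast
  ring

lemma alg_one {A : Type*} [Ring A] {L f w : A} (g : A) (h : L * f - f * L = w) :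
    L * (f * g) + f * (-(L * g)) - w * g = 0 := by
  rw [← h]; noncomm_ring

end Lin

variable {k : Type u} [Field k] {𝒱 : VarClass k} {ops : CycleOps 𝒱}
  {W : WeilCohomology.{u, v} ops} {X Y Z : 𝒱.Obj}

/-- Correspondences map algebraic classes to algebraic classes. -/
lemma _root_.Pool.Agent.W534.QOp.exists_cl {d : ℤ} {φ : W.H X →ₗ[W.K] W.H Y}
    (hφ : QOp W X Y d φ) {p q : ℕ} (hpq : (q : ℤ) = p + d) {z : X.Cycles} (hz : X.IsCyc p z) :
    ∃ z', Y.IsCyc q z' ∧ φ (W.cl X z) = W.cl Y z' := by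
  rcases hφ with ⟨r, hr, w, hw, rfl⟩ | ⟨-, rfl⟩
  · refine ⟨ops.push (snd X Y) (ops.mul w (ops.pull (fst X Y) z)), ?_, ?_⟩
    · exact ops.push_mem _ (ops.mul_mem hw (ops.pull_mem _ hz)) (by rw [dim_prod]; omega)
    · rw [corr_apply, W.cl_push, W.cl_mul, W.cl_pull]
  · exact ⟨0, SmVar.IsCyc.zero _ _, by rw [map_zero, LinearMap.zero_apply]⟩

/-- **The conjecture B from the conjecture C and a left inverse in one degree.** -/
theorem lefschetzB_of_left (hn : 1 ≤ X.dim) {D : X.Cycles} (hD : X.IsCyc 1 D)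
    (hHL : HardLefschetz W X D) (hK : KunnethStd W X)
    {A : Module.End W.K (W.H (X.prod X))} (hA : QOp W (X.prod X) (X.prod X) (-1) A)
    (hinv : ∀ a ∈ W.gr (X.prod X) (2 * (X.dim - 1)), A (W.cl _ (boxSum ops D) * a) = a) :
    LefschetzB W X D := by
  have h := W.isInternal X
  have hLR := rop_mulLeft (W := W) hD
  have hLh : IsHom (W.gr X) 2 (LinearMap.mulLeft W.K (W.cl X D)) := by
    simpa using rop_opAlg.hom hLR
  obtain ⟨f, t, hf, -⟩ := exists_sl2 h hLh W_hbd hHL
  apply lefschetzB_of_lower hD hHL t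
  set g := sgnOp h with hg
  have hgR : ROp W X 0 g := rop_scal hK _
  have hwR : ROp W X 0 (wt h X.dim) := rop_scal hK _
  have hwg : ROp W X 0 (wt h X.dim * g) := rop_mul0 hwR hgR
  have hgh : IsHom (W.gr X) 0 g := by simpa using rop_opAlg.hom hgR
  obtain ⟨z, hz, hz'⟩ := exists_of_rop (p := X.dim) (by simp) hwg
  obtain ⟨φ, hφ⟩ := exists_corr (f * g)
  have hφm : φ ∈ W.gr (X.prod X) (2 * (X.dim - 1)) := by
    apply mem_gr_of_isHom
    rw [hφ, show (2 * (((X.dim - 1 : ℕ) : ℤ) - X.dim)) = -2 + 0 by omega]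
    exact hf.mul hgh
  have h1 : W.cl _ (boxSum ops D) * φ = W.cl _ z := by
    rw [← sub_eq_zero]
    apply corr_inj
    rw [corr_sub', hz', corr_boxSum hD, hφ, dbl_apply, mul_assoc f g, hg, sgnOp_anti h hLh]
    exact alg_one (A := Module.End W.K (W.H X)) _ t.ef
  obtain ⟨z', hz'm, hz''⟩ := hA.exists_cl (q := X.dim - 1) (by omega) hz
  have h2 : φ = W.cl _ z' := by
    rw [← hz'', ← h1]
    exact (hinv φ hφm).symm
  have h3 : ROp W X (-1) (f * g) := by
    rw [← hφ, h2]
    exact rop_corr (by omega) hz'm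
  have h4 : f = f * g * g := by rw [mul_assoc, sgnOp_sq, mul_one]
  rw [h4]
  exact rop_opAlg.cast (rop_opAlg.mul h3 hgR) (by ring)

end Pool.Agent.Y99.GH
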