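import Pool.Agent.Y99.GH.Res
import Pool.Agent.Y99.GH.Left
import Pool.Agent.H447R3.KuB

/-!
# The conjecture C for a generic section
-/

open CategoryTheory AlgebraicGeometry Finset

universe u v

namespace Pool.Agent.Y99.GH

open Pool.Agent.H914 Pool.Agent.H447 Pool.Agent.H914.VarClass Pool.Agent.H914.VarClass.Obj
  Pool.Agent.H914.WeilCohomology Pool.Agent.W534

variable {k : Type u} [Field k] {𝒱 : VarClass k} {ops : CycleOps 𝒱}
  {W : WeilCohomology.{u, v} ops} {X Y Z : 𝒱.Obj}

lemma map_proj (i : Y ⟶ Z) (j : ℕ) (a : W.H Z) :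
    proj (W.isInternal Y) j (W.map i a) = W.map i (proj (W.isInternal Z) j a) := by
  refine gr_induction (W.isInternal Z) (p := fun a => proj (W.isInternal Y) j (W.map i a) =
    W.map i (proj (W.isInternal Z) j a)) ?_ ?_ a
  · intro l a ha
    by_cases hl : l = j
    · subst hl; rw [proj_same _ ha, proj_same _ (W.map_mem i ha)]
    · rw [proj_ne _ ha hl, proj_ne _ (W.map_mem i ha) hl, map_zero]
  · intro a b ha hb; simp only [map_add, ha, hb]

lemma map_scal (i : Y ⟶ Z) (c : ℕ → W.K) (a : W.H Z) :
    scal (W.isInternal Y) c (W.map i a) = W.map i (scal (W.isInternal Z) c a) := by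
  refine gr_induction (W.isInternal Z) (p := fun a => scal (W.isInternal Y) c (W.map i a) =
    W.map i (scal (W.isInternal Z) c a)) ?_ ?_ a
  · intro l a ha
    rw [scal_apply _ _ ha, scal_apply _ _ (W.map_mem i ha), map_smul]
  · intro a b ha hb; simp only [map_add, ha, hb]

/-- The projector onto the top cohomology is algebraic. -/
lemma rop_proj_top {D : X.Cycles} (hD : X.IsCyc 1 D) (hHL : HardLefschetz W X D) :
    ROp W X 0 (proj (W.isInternal X) (2 * X.dim)) := by
  have h := W.isInternal X
  obtain ⟨z, hz, hzc⟩ : ∃ z, X.IsCyc X.dim z ∧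
      W.cl X z = ((LinearMap.mulLeft W.K (W.cl X D)) ^ X.dim) 1 := by
    obtain ⟨z, hz, h1⟩ := (rop_iff.1 (rop_opAlg.cast (rop_opAlg.pow (rop_mulLeft (W := W) hD) X.dim)
      (mul_one _))).exists_cl (p := 0) (q := X.dim) (by simp) X.V.fundCycle_mem
    exact ⟨z, hz, by rw [← h1, W.cl_fund]⟩
  have hspan : ∀ b ∈ W.gr X (2 * X.dim), ∃ c : W.K, b = c • W.cl X z := by
    intro b hb
    obtain ⟨a, ha, hab⟩ := (hHL 0 (by omega)).2 b (by rwa [Nat.sub_zero])
    rw [W.gr_zero, Submodule.mem_span_singleton] at ha
    obtain ⟨c, rfl⟩ := ha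
    refine ⟨c, ?_⟩
    rw [hzc, ← map_smul, ← hab, Nat.sub_zero]
  by_cases ht : W.tr X (W.cl X z) = 0
  · have hz0 : W.cl X z = 0 := by
      apply W.nondeg
      intro b
      refine gr_induction h (p := fun b => W.tr X (W.cl X z * b) = 0) ?_ ?_ b
      · intro l b hb
        by_cases hl : l = 0
        · subst hl
          rw [W.gr_zero, Submodule.mem_span_singleton] at hb
          obtain ⟨c, rfl⟩ := hb
          rw [mul_smul_comm, mul_one, map_smul, ht, smul_zero]
        · exact W.tr_eq_zero (W.mul_mem (W.cl_mem hz) hb) (by omega)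
      · intro b b' hb hb'
        rw [mul_add, map_add, hb, hb', add_zero]
    have : proj h (2 * X.dim) = 0 := by
      apply gr_ext h
      intro l a ha
      rw [LinearMap.zero_apply]
      by_cases hl : l = 2 * X.dim
      · subst hl
        obtain ⟨c, rfl⟩ := hspan a ha
        rw [hz0, smul_zero, map_zero]
      · exact proj_ne _ ha hl
    rw [this]
    exact rop_opAlg.zero 0
  · have htq : W.tr X (W.cl X z) = ((X.V.degCycle z : ℚ) : W.K) := W.tr_cl hz
    have h1 : ROp W X 0 (W.corr (W.cl _ (ops.pull (snd X X) z))) :=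
      rop_corr (p := X.dim) (by simp) (ops.pull_mem _ hz)
    have h2 : proj h (2 * X.dim) =
        (((X.V.degCycle z)⁻¹ : ℚ) : W.K) • W.corr (W.cl _ (ops.pull (snd X X) z)) := by
      apply gr_ext h
      intro l a ha
      have e1 : W.corr (W.cl _ (ops.pull (snd X X) z)) a = W.tr X a • W.cl X z := by
        rw [W.cl_pull]
        have := corr_tmul (W := W) (1 : W.H X) (W.cl_mem hz) ha
        rw [map_one, one_mul, one_mul, mul_assoc, pow_mul] at this
        simpa using this
      rw [LinearMap.smul_apply, e1]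
      by_cases hl : l = 2 * X.dim
      · subst hl
        rw [proj_same _ ha]
        obtain ⟨c, rfl⟩ := hspan a ha
        rw [map_smul, smul_smul, smul_eq_mul, htq, Rat.cast_inv, mul_comm c, ← mul_assoc,
          inv_mul_cancel₀ (by rwa [← htq]), one_mul]
      · rw [proj_ne _ ha hl, W.tr_eq_zero ha hl, zero_smul, smul_zero]
    rw [h2]
    exact rop_opAlg.smul _ h1

namespace Sec

section

variable {i : Y ⟶ Z} {E : Z.Cycles} (S : Sec W i E)

include S

/-- The operators on the ambient variety attached to the Kunneth projectors. -/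
lemma exists_left {j : ℕ} (hj : j < Y.dim) (hK : KunnethAt W Y j) :
    ∃ A : Module.End W.K (W.H Z), QOp W Z Z (-1) A ∧ ∀ l ≤ Y.dim, ∀ a ∈ W.gr Z l,
      A (W.cl Z E * a) = if l = j then a else 0 := by
  obtain ⟨z, hz, hz'⟩ := hK
  obtain ⟨A, hA, hP⟩ := S.exists_amb hz (by
    intro x hx
    rw [hz' _ _ hx.1, if_neg (by omega)]) (by
    intro a
    refine ⟨proj (W.isInternal Z) j a, ?_⟩
    rw [isProjTo_iff.1 hz', map_proj])
  refine ⟨A, hA, fun l hl a ha => ?_⟩
  have h1 := S.left_inv hA hP hl (ε := if l = j then 1 else 0) (by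
    intro b hb
    rw [hz' l b hb]
    split_ifs
    · rw [one_smul]
    · rw [zero_smul]) ha
  rw [h1]
  split_ifs
  · rw [one_smul]
  · rw [zero_smul]

/-- The operator on the ambient variety attached to the projector onto the even cohomology. -/
lemma exists_left_even (hodd : ¬ Even Y.dim) (hS : SignStd W Y) :
    ∃ A : Module.End W.K (W.H Z), QOp W Z Z (-1) A ∧ ∀ l ≤ Y.dim, ∀ a ∈ W.gr Z l,
      A (W.cl Z E * a) = if Even l then a else 0 := by
  obtain ⟨z, hz, hz'⟩ := hS
  obtain ⟨A, hA, hP⟩ := S.exists_amb hz (by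
    intro x hx
    rw [hz' _ _ hx.1, if_neg hodd]) (by
    intro a
    refine ⟨evenProj (W.isInternal Z) a, ?_⟩
    rw [isEvenProj_iff.1 hz', evenProj, evenProj, map_scal])
  refine ⟨A, hA, fun l hl a ha => ?_⟩
  have h1 := S.left_inv hA hP hl (ε := if Even l then 1 else 0) (by
    intro b hb
    rw [hz' l b hb]
    split_ifs
    · rw [one_smul]
    · rw [zero_smul]) ha
  rw [h1]
  split_ifs
  · rw [one_smul]
  · rw [zero_smul]

end

section

variable {D : X.Cycles} {i : Y ⟶ X.prod X} (S : Sec W i (boxSum ops D))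

include S

lemma dimY : Y.dim + 1 = 2 * X.dim := by
  have := S.gen.dim
  rw [dim_prod] at this
  omega

/-- The conjecture C for `X` from the conjecture C for the generic section of `X × X`. -/
lemma kunneth_base (hD : X.IsCyc 1 D) (hHL : HardLefschetz W X D) (hK : KunnethStd W Y) :
    KunnethStd W X := by
  have h := W.isInternal X
  have hdim := S.dimY
  have htop := rop_proj_top hD hHL
  -- the low degrees
  have hlow : ∀ j < Y.dim, ROp W X 0 (proj h j) := by
    intro j hj
    obtain ⟨A, hA, hA'⟩ := S.exists_left hj (hK j)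
    set Q : Module.End W.K (W.H X) := (W.map (diag X)).toLinearMap ∘ₗ
      (A ∘ₗ LinearMap.mulLeft W.K (W.cl _ (boxSum ops D))) ∘ₗ (W.map (fst X X)).toLinearMap with hQ
    have hQR : ROp W X 0 Q := by
      rw [rop_iff]
      have h1 : QOp W (X.prod X) (X.prod X) 0
          (A ∘ₗ LinearMap.mulLeft W.K (W.cl _ (boxSum ops D))) :=
        (hA.comp (rop_iff.1 (rop_mulLeft (boxSum_mem hD)))).cast (by ring)
      exact ((qop_pull (diag X)).comp (h1.comp (qop_pull (fst X X)))).cast (by ring)
    have h1 : proj h j = Q * (1 - proj h (2 * X.dim)) := by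
      apply gr_ext h
      intro l a ha
      rw [Module.End.mul_apply, LinearMap.sub_apply, Module.End.one_apply]
      by_cases hl : l = 2 * X.dim
      · subst hl
        rw [proj_same h ha, sub_self, map_zero, proj_ne h ha (by omega)]
      · rw [proj_ne h ha hl, sub_zero]
        by_cases hl2 : l ≤ Y.dim
        · have h2 := hA' l hl2 _ (W.map_mem (fst X X) ha)
          have h3 : Q a = W.map (diag X) (A (W.cl _ (boxSum ops D) * W.map (fst X X) a)) := rfl
          rw [h3, h2]
          by_cases hlj : l = j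
          · subst hlj
            rw [if_pos rfl, proj_same h ha, ← W.map_comp]
            have e2 : diag X ≫ fst X X = 𝟙 X := Obj.lift_fst _ _
            rw [e2, W.map_id]
          · rw [if_neg hlj, map_zero, proj_ne h ha hlj]
        · rw [W.gr_eq_bot X l (by omega)] at ha
          rw [(Submodule.mem_bot _).1 ha, map_zero, map_zero]
    rw [h1]
    exact rop_mul0 hQR (rop_opAlg.sub rop_opAlg.one htop)
  apply kunneth_of_rop
  intro j
  by_cases hj : j < Y.dim
  · exact hlow j hj
  by_cases hj2 : j = 2 * X.dim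
  · rw [hj2]; exact htop
  by_cases hj3 : 2 * X.dim < j
  · have : proj h j = 0 := by
      apply gr_ext h
      intro l a ha
      by_cases hl : l = j
      · subst hl
        rw [W.gr_eq_bot X l hj3] at ha
        rw [(Submodule.mem_bot _).1 ha, map_zero, map_zero]
      · rw [proj_ne h ha hl, LinearMap.zero_apply]
    rw [this]
    exact rop_opAlg.zero 0
  · obtain rfl : j = Y.dim := by omega
    have hsum := sum_proj h (N := 2 * X.dim + 1) (fun i hi => W.gr_eq_bot X i (by omega))
    rw [← hdim, Finset.sum_range_succ, Finset.sum_range_succ] at hsum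
    have h1 : proj h Y.dim = 1 - ∑ x ∈ range Y.dim, proj h x - proj h (2 * X.dim) := by
      rw [← hsum, hdim]; abel
    rw [h1]
    exact rop_opAlg.sub (rop_opAlg.sub rop_opAlg.one
      (rop_opAlg.sum (fun l hl => hlow l (Finset.mem_range.1 hl)))) htop

/-- The conjecture B for `X` from the conjecture C for the generic section. -/
lemma lefschetzB_of_kunneth (hD : X.IsCyc 1 D) (hHL : HardLefschetz W X D) (hK : KunnethStd W Y) :
    LefschetzB W X D := by
  have hdim := S.dimY
  obtain ⟨A, hA, hA'⟩ := S.exists_left (j := 2 * (X.dim - 1)) (by omega) (hK _)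
  refine lefschetzB_of_left (by omega) hD hHL (S.kunneth_base hD hHL hK) hA fun a ha => ?_
  rw [hA' _ (by omega) a ha, if_pos rfl]

/-- The conjecture B for `X` from the conjecture C for `X` and the sign conjecture for the generic
section. -/
lemma lefschetzB_of_sign (hD : X.IsCyc 1 D) (hHL : HardLefschetz W X D) (hK : KunnethStd W X)
    (hS : SignStd W Y) : LefschetzB W X D := by
  have hdim := S.dimY
  obtain ⟨A, hA, hA'⟩ := S.exists_left_even (by
    intro h1
    have h2 := h1.add_one
    rw [hdim] at h2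
    exact (Nat.not_even_iff_odd.2 h2) (even_two_mul _)) hS
  refine lefschetzB_of_left (by omega) hD hHL hK hA fun a ha => ?_
  rw [hA' _ (by omega) a ha, if_pos (even_two_mul _)]

end

end Sec

end Pool.Agent.Y99.GH
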