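import Pool.Agent.Y99.GH.Up
import Pool.Agent.W498.Dom.Class
import Pool.Agent.TH132.A.HLf

/-!
# The conjecture B for `X` and the conjecture C for a generic section of `X × X`
-/

open CategoryTheory AlgebraicGeometry Finset

universe u v

namespace Pool.Agent.Y99.GH

open Pool.Agent.H914 Pool.Agent.H447 Pool.Agent.H914.VarClass Pool.Agent.H914.VarClass.Obj
  Pool.Agent.H914.WeilCohomology Pool.Agent.W534 Pool.Agent.W550.B Pool.Agent.W498.Dom

variable {k : Type u} [Field k] {𝒱 : VarClass k} {ops : CycleOps 𝒱}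
  {W : WeilCohomology.{u, v} ops} {X Y Z : 𝒱.Obj}

/-- Hard Lefschetz for products. -/
theorem hardLefschetz_prod {D : X.Cycles} {E : Y.Cycles} (hD : X.IsCyc 1 D)
    (hE : Y.IsCyc 1 E) (h1 : HardLefschetz W X D) (h2 : HardLefschetz W Y E) :
    HardLefschetz W (X.prod Y) (ops.pull (fst X Y) D + ops.pull (snd X Y) E) := by
  obtain ⟨f, tf⟩ := TH132.A.exists_low hD h1
  obtain ⟨g, tg⟩ := TH132.A.exists_low hE h2
  have t := TH132.A.low_prod hE tf tg
  refine TH132.A.hardLefschetz_of_inj (SmVar.IsCyc.add (ops.pull_mem _ hD) (ops.pull_mem _ hE))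
    fun i hi a ha h0 => ?_
  by_contra ha0
  refine Sl2.e_pow_inj t (x := a) (M := (X.prod Y).dim - i) ?_ ha0 le_rfl h0
  rw [wt, scal_apply _ _ ha, node]
  congr 1
  rw [Nat.cast_sub hi]
  push_cast
  ring

lemma sec_of_generic {D : X.Cycles} (hD : IsLefschetzDivisor W X D) {i : Y ⟶ X.prod X}
    (hY : IsGenericSection W i (boxSum ops D)) : Sec W i (boxSum ops D) :=
  ⟨boxSum_mem hD.1, hardLefschetz_prod hD.1 hD.1 hD.2 hD.2, hY⟩

/-- The conjecture B for `X` implies the conjecture B for the section. -/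
lemma lefschetzB_sec {D : X.Cycles} (hD : IsLefschetzDivisor W X D) {i : Y ⟶ X.prod X}
    (S : Sec W i (boxSum ops D)) (hB : LefschetzB W X D) :
    LefschetzB W Y (ops.pull i (boxSum ops D)) := by
  have h1 : Inj W X := inj_of_lefschetzB hD.1 hD.2 hB
  have h2 : Inj W (X.prod X) := Inj.prod hD hD h1 h1
  have h3 : Inj W Y := Inj.hyperplane i S.gen.dim ⟨S.cyc, S.hl⟩ S.gen.cls S.gen.lef h2
  exact lefschetzB_of_inj (pull_mem_one S.cyc) S.hs.hl' h3

/-- The conjecture B implies the conjecture C. -/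
lemma kunneth_of_lefschetzB {D : X.Cycles} (hD : X.IsCyc 1 D) (hHL : HardLefschetz W X D)
    (hB : LefschetzB W X D) : KunnethStd W X := by
  have h1 := ((weight_tfae (W := W) hD hHL).out 0 2).1 hB
  exact h1.1

/-- The conjecture C implies the sign conjecture. -/
lemma sign_of_kunneth (hK : KunnethStd W X) : SignStd W X := by
  have h0 : evenProj (W.isInternal X) = scal (W.isInternal X)
      (fun j => (((if Even j then (1 : ℚ) else 0 : ℚ)) : W.K)) := by
    apply gr_ext (W.isInternal X)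
    intro j a ha
    rw [evenProj, scal_apply _ _ ha, scal_apply _ _ ha]
    split_ifs
    · rw [Rat.cast_one]
    · rw [Rat.cast_zero]
  have h1 : ROp W X 0 (evenProj (W.isInternal X)) := by
    rw [h0]
    exact rop_scal hK (fun j => if Even j then (1 : ℚ) else 0)
  obtain ⟨P, hP, hP'⟩ := exists_of_rop (p := X.dim) (by simp) h1
  exact ⟨P, hP, isEvenProj_iff.2 hP'⟩

/-- The conjecture B does not depend on the divisor. -/
lemma allB_iff {D : X.Cycles} (hD : IsLefschetzDivisor W X D) :
    StandardB W X ↔ LefschetzB W X D :=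
  ⟨fun h => h D hD, fun h _ hE => lefschetzB_of_inj hE.1 hE.2 (inj_of_lefschetzB hD.1 hD.2 h)⟩

/-- **The conjecture B for `X` and the conjectures B, C and the sign conjecture for the generic
section of `X × X`.** -/
theorem main_one {D : X.Cycles} (hD : IsLefschetzDivisor W X D) {i : Y ⟶ X.prod X}
    (hY : IsGenericSection W i (boxSum ops D)) :
    List.TFAE [StandardB W X, StandardB W Y, KunnethStd W Y, SignStd W Y] := by
  have S := sec_of_generic hD hY
  have hDY : IsLefschetzDivisor W Y (ops.pull i (boxSum ops D)) :=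
    ⟨pull_mem_one S.cyc, S.hs.hl'⟩
  tfae_have 1 → 2 := fun h => (allB_iff hDY).2 (lefschetzB_sec hD S ((allB_iff hD).1 h))
  tfae_have 2 → 3 := fun h => kunneth_of_lefschetzB hDY.1 hDY.2 ((allB_iff hDY).1 h)
  tfae_have 3 → 4 := sign_of_kunneth
  tfae_have 4 → 1 := fun h => (allB_iff hD).2 (S.lefschetzB_of_sign' hD.1 hD.2 h)
  tfae_finish

end Pool.Agent.Y99.GH
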