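import Pool.Agent.H578R3.MomA

/-!
# Interpolating signs
-/

open Polynomial Finset TensorProduct

namespace Pool.Agent.Y99.GH

open Pool.Agent.H914 Pool.Agent.H447 Pool.Agent.H578R3.Mom

/-- The sign attached to a rational number. -/
noncomputable def eps (ν : ℚ) : ℚ := (-1 : ℚ) ^ ⌊ν / 2⌋

lemma eps_add_two (ν : ℚ) : eps (ν + 2) = - eps ν := by
  have : ⌊(ν + 2) / 2⌋ = ⌊ν / 2⌋ + 1 := by
    rw [add_div, div_self two_ne_zero, Int.floor_add_one]
  rw [eps, eps, this, zpow_add₀ (by norm_num)]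
  simp

lemma eps_sq (ν : ℚ) : eps ν * eps ν = 1 := by
  rw [eps, ← zpow_add₀ (by norm_num), ← two_mul, zpow_mul]
  simp

lemma pairwise_coprime (s : Finset ℚ) (N : ℕ) :
    (s : Set ℚ).Pairwise (Function.onFun IsCoprime fun ν : ℚ => (X - C ν : ℚ[X]) ^ N) := by
  intro i _ j _ hij
  apply IsCoprime.pow
  apply isCoprime_X_sub_C_of_isUnit_sub
  exact (sub_ne_zero_of_ne hij).isUnit

lemma prod_dvd {s : Finset ℚ} {N : ℕ} {f : ℚ[X]} (h : ∀ ν ∈ s, (X - C ν) ^ N ∣ f) :
    ∏ ν ∈ s, (X - C ν) ^ N ∣ f :=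
  Finset.prod_dvd_of_coprime (pairwise_coprime s N) h

/-- Interpolation modulo powers. -/
lemma exists_interp (s : Finset ℚ) (N : ℕ) (e : ℚ → ℚ) :
    ∃ q : ℚ[X], ∀ ν ∈ s, (X - C ν) ^ N ∣ q - C (e ν) := by
  classical
  rcases s.eq_empty_or_nonempty with rfl | hsn
  · exact ⟨0, fun ν hν => absurd hν (Finset.notMem_empty _)⟩
  set F : ℚ → ℚ[X] := fun ν => (X - C ν) ^ N with hF
  have hcop : Pairwise (Function.onFun IsCoprime fun i : s => F i) := by
    intro i j hij
    exact pairwise_coprime s N i.2 j.2 (fun h => hij (Subtype.ext h))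
  obtain ⟨μ, hμ⟩ := (exists_sum_eq_one_iff_pairwise_coprime hsn).2 hcop
  set p : ℚ → ℚ[X] := fun ν => μ ν * ∏ j ∈ s \ {ν}, F j with hp
  refine ⟨∑ κ ∈ s, C (e κ) * p κ, fun ν hν => ?_⟩
  have h1 : ∑ κ ∈ s, C (e κ) * p κ - C (e ν) = ∑ κ ∈ s, C (e κ - e ν) * p κ := by
    rw [← mul_one (C (e ν)), ← hμ, Finset.mul_sum, ← Finset.sum_sub_distrib]
    apply Finset.sum_congr rfl
    intro κ _
    rw [C_sub, sub_mul]
  rw [h1]
  apply Finset.dvd_sum
  intro κ _
  by_cases hκ : κ = ν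
  · rw [hκ, sub_self, C_0, zero_mul]
    exact dvd_zero _
  · apply Dvd.dvd.mul_left
    apply Dvd.dvd.mul_left
    have : F ν ∣ ∏ j ∈ s \ {κ}, F j := by
      apply Finset.dvd_prod_of_mem
      rw [Finset.mem_sdiff, Finset.mem_singleton]
      exact ⟨hν, fun h => hκ h.symm⟩
    exact this

variable {K : Type*} [Field K] [CharZero K] {V : Type*} [AddCommGroup V] [Module K V]
  [Module.Finite K V]

/-- The eigenvalues are rational: closed fields. -/
lemma exists_rat_closed [IsAlgClosed K] {T S : Module.End K V}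
    (h : ∀ k : ℕ, LinearMap.trace K V (T ^ k * T) =
      LinearMap.trace K V (S * ((T + 2) ^ k - T ^ k))) :
    ∃ (s : Finset ℚ) (N : ℕ), ev T (∏ ν ∈ s, (X - C ν) ^ N) = 0 := by
  classical
  obtain ⟨s, E, N, hEp, hE1, hEE, hEN⟩ := exists_spectral T
  have hrat : ∀ ν, ∃ q : ℚ, ν ∈ s → E ν ≠ 0 → ν = q := by
    intro ν
    by_cases hν : ν ∈ s ∧ E ν ≠ 0
    · obtain ⟨q, hq⟩ := rat_closed h hEp hE1 hEE hEN hν.1 hν.2
      exact ⟨q, fun _ _ => hq⟩
    · exact ⟨0, fun h1 h2 => absurd ⟨h1, h2⟩ hν⟩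
  choose q hq using hrat
  refine ⟨s.image q, N, ?_⟩
  rw [← mul_one (ev T _), ← hE1, Finset.mul_sum]
  apply Finset.sum_eq_zero
  intro ν hν
  by_cases h0 : E ν = 0
  · rw [h0, mul_zero]
  obtain ⟨g, hg⟩ := Finset.dvd_prod_of_mem (fun ν : ℚ => (X - C ν : ℚ[X]) ^ N)
    (Finset.mem_image_of_mem q hν)
  have h1 : ev T ((X - C (q ν)) ^ N) * E ν = 0 := by
    have h2 : ev T ((X - C (q ν)) ^ N) = (T - algebraMap K (Module.End K V) ν) ^ N := by
      rw [map_pow, map_sub, ev_X, ev_C, ← hq ν hν h0, Algebra.algebraMap_eq_smul_one]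
    rw [h2, hEN ν hν]
  rw [hg, mul_comm, map_mul, mul_assoc, h1, mul_zero]

/-- The eigenvalues are rational. -/
theorem exists_rat {T S : Module.End K V}
    (h : ∀ k : ℕ, LinearMap.trace K V (T ^ k * T) =
      LinearMap.trace K V (S * ((T + 2) ^ k - T ^ k))) :
    ∃ (s : Finset ℚ) (N : ℕ), ev T (∏ ν ∈ s, (X - C ν) ^ N) = 0 := by
  set Kb := AlgebraicClosure K
  have h2b : (T + 2).baseChange Kb = T.baseChange Kb + 2 := by
    have h2 := map_add (Module.End.baseChangeHom K Kb V) T 2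
    rw [map_ofNat] at h2
    exact h2
  obtain ⟨s, N, hs⟩ := exists_rat_closed (K := Kb) (V := Kb ⊗[K] V) (T := T.baseChange Kb)
    (S := S.baseChange Kb) (fun k => by
      rw [← h2b, ← bc_pow, ← bc_pow, ← bc_mul, ← bc_sub, ← bc_mul]
      have h3 := LinearMap.trace_baseChange (T ^ k * T) Kb
      have h4 := LinearMap.trace_baseChange (S * ((T + 2) ^ k - T ^ k)) Kb
      rw [h3, h4, h k])
  refine ⟨s, N, bc_inj Kb ?_⟩
  rw [bc_ev, hs, bc_zero]

/-- **The sign polynomial.** -/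
theorem exists_sign {T S : Module.End K V}
    (h : ∀ k : ℕ, LinearMap.trace K V (T ^ k * T) =
      LinearMap.trace K V (S * ((T + 2) ^ k - T ^ k))) :
    ∃ q : ℚ[X], ev T q * ev T q = 1 ∧ ev (T + 2) q = - ev T q := by
  classical
  obtain ⟨s, N, hs⟩ := exists_rat h
  obtain ⟨q, hq⟩ := exists_interp (s ∪ s.image (· + 2)) N eps
  have key : ∀ f : ℚ[X], (∀ ν ∈ s, (X - C ν) ^ N ∣ f) → ev T f = 0 := by
    intro f hf
    obtain ⟨g, hg⟩ := prod_dvd hf
    rw [hg, map_mul, hs, zero_mul]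
  refine ⟨q, ?_, ?_⟩
  · have h1 := key (q * q - 1) (by
      intro ν hν
      obtain ⟨g, hg⟩ := hq ν (Finset.mem_union_left _ hν)
      have h2 : q * q - 1 = (q - C (eps ν)) * (q + C (eps ν)) := by
        have h3 : C (eps ν) * C (eps ν) = (1 : ℚ[X]) := by rw [← C_mul, eps_sq, C_1]
        calc q * q - 1 = q * q - C (eps ν) * C (eps ν) := by rw [h3]
          _ = _ := by ring
      rw [h2, hg, mul_assoc]
      exact dvd_mul_right _ _)
    rw [map_sub, map_mul, map_one, sub_eq_zero] at h1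
    exact h1
  · have h1 := key (q.comp (X + 2) + q) (by
      intro ν hν
      obtain ⟨g, hg⟩ := hq ν (Finset.mem_union_left _ hν)
      obtain ⟨g', hg'⟩ := hq (ν + 2) (Finset.mem_union_right _ (Finset.mem_image_of_mem _ hν))
      have h2 := congrArg (fun f : ℚ[X] => f.comp (X + 2)) hg'
      simp only [sub_comp, C_comp, mul_comp, pow_comp, X_comp] at h2
      have h3 : (X + 2 - C (ν + 2) : ℚ[X]) = X - C ν := by
        rw [C_add]
        have : (C (2 : ℚ) : ℚ[X]) = 2 := rfl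
        rw [this]; ring
      rw [h3] at h2
      have h4 : q.comp (X + 2) + q = (q.comp (X + 2) - C (eps (ν + 2))) + (q - C (eps ν)) := by
        rw [eps_add_two, C_neg]; ring
      rw [h4, h2, hg]
      exact dvd_add (dvd_mul_right _ _) (dvd_mul_right _ _))
    have h2 : ev T (q.comp (X + 2)) = ev (T + 2) q := by
      have h5 : ev T (X + 2) = T + 2 := by
        rw [map_add, ev_X, map_ofNat]
      have h6 : ∀ f : ℚ[X], ev T (f.comp (X + 2)) = ev (T + 2) f := by
        intro f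
        induction f using Polynomial.induction_on' with
        | add a b ha hb => rw [add_comp, map_add, map_add, ha, hb]
        | monomial k c =>
          rw [← C_mul_X_pow_eq_monomial, mul_comp, C_comp, pow_comp, X_comp, map_mul, map_pow, h5,
            map_mul, map_pow, ev_X, ev_C, ev_C]
      exact h6 q
    rw [map_add, h2, add_eq_zero_iff_eq_neg] at h1
    exact h1

end Pool.Agent.Y99.GH
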