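import Pool.Agent.Y99.GH.Defs
import Pool.Agent.W534.Hyp

/-!
# The operator of a restricted correspondence
-/

open CategoryTheory AlgebraicGeometry Finset

universe u v

namespace Pool.Agent.Y99.GH

open Pool.Agent.H914 Pool.Agent.H447 Pool.Agent.H914.VarClass Pool.Agent.H914.VarClass.Obj
  Pool.Agent.H914.WeilCohomology Pool.Agent.W534

variable {k : Type u} [Field k] {𝒱 : VarClass k} {ops : CycleOps 𝒱}
  {W : WeilCohomology.{u, v} ops} {Y Z : 𝒱.Obj} {i : Y ⟶ Z}

/-- The operator of a decomposable class. -/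
lemma corr_tmul {X T : 𝒱.Obj} {q : ℕ} (a : W.H X) {b : W.H T} (hb : b ∈ W.gr T q) {l : ℕ}
    {x : W.H X} (hx : x ∈ W.gr X l) :
    W.corr (W.map (fst X T) a * W.map (snd X T) b) x =
      ((-1 : W.K) ^ (q * l) * W.tr X (a * x)) • b := by
  rw [corr_apply, mul_assoc, W.comm (W.map_mem (snd X T) hb) (W.map_mem (fst X T) hx),
    mul_smul_comm, ← mul_assoc, ← map_mul, map_smul, push_snd, smul_smul]

/-- The operator of a restricted correspondence. -/
lemma corr_prodMap (c : W.H (Z.prod Z)) :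
    W.corr (W.map (prodMap i) c) = (W.map i).toLinearMap ∘ₗ W.corr c ∘ₗ W.push i := by
  refine W.kunneth_induction (p := fun c =>
    W.corr (W.map (prodMap i) c) = (W.map i).toLinearMap ∘ₗ W.corr c ∘ₗ W.push i) ?_ ?_ c
  · intro a b ha hb
    rw [map_add, corr_add, ha, hb, corr_add, LinearMap.add_comp, LinearMap.comp_add]
  intro p q a ha b hb
  have e1 : prodMap i ≫ fst Z Z = fst Y Y ≫ i := Obj.lift_fst _ _
  have e2 : prodMap i ≫ snd Z Z = snd Y Y ≫ i := Obj.lift_snd _ _
  rw [map_mul (W.map (prodMap i)), ← W.map_comp, ← W.map_comp, e1, e2, W.map_comp, W.map_comp]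
  apply gr_ext (W.isInternal Y)
  intro l x hx
  rw [LinearMap.comp_apply, LinearMap.comp_apply, corr_tmul _ (W.map_mem i hb) hx,
    AlgHom.toLinearMap_apply]
  have h1 := W.push_mem i hx
  by_cases hneg : (l : ℤ) + 2 * ((Z.dim : ℤ) - Y.dim) < 0
  · rw [grZ_of_neg hneg] at h1
    rw [(Submodule.mem_bot _).1 h1, map_zero, map_zero, ← tr_mul_push,
      (Submodule.mem_bot _).1 h1, mul_zero, map_zero, mul_zero, zero_smul]
  · obtain ⟨r, hr⟩ := Int.eq_ofNat_of_zero_le (not_lt.1 hneg)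
    rw [hr, grZ_natCast] at h1
    rw [corr_tmul _ hb h1, tr_mul_push, map_smul]
    congr 2
    have h2 : Even (q * r + q * l) := by
      rw [← mul_add]
      apply Even.mul_left
      have : ((r + l : ℕ) : ℤ) = 2 * (l + ((Z.dim : ℤ) - Y.dim)) := by push_cast; omega
      have h3 : Even ((r + l : ℕ) : ℤ) := ⟨l + ((Z.dim : ℤ) - Y.dim), by rw [this]; ring⟩
      exact_mod_cast h3
    have h4 : (-1 : W.K) ^ (q * r) * (-1) ^ (q * l) = 1 := by rw [← pow_add, h2.neg_one_pow]
    have h5 : (-1 : W.K) ^ (q * l) * (-1) ^ (q * l) = 1 := by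
      rw [← pow_add, ← two_mul, pow_mul]; simp
    calc (-1 : W.K) ^ (q * l) = ((-1 : W.K) ^ (q * r) * (-1) ^ (q * l)) * (-1 : W.K) ^ (q * l) := by
          rw [h4, one_mul]
      _ = (-1 : W.K) ^ (q * r) := by rw [mul_assoc, h5, mul_one]

/-- The operator of a cycle which is the sum of a multiple of the diagonal and a restriction. -/
lemma corr_restr {z : (Y.prod Y).Cycles} (h : IsRestriction W i z) :
    ∃ (c : ℚ) (w : (Z.prod Z).Cycles), (Z.prod Z).IsCyc Y.dim w ∧
      W.corr (W.cl _ z) = (c : W.K) • (1 : Module.End W.K (W.H Y)) +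
        (W.map i).toLinearMap ∘ₗ W.corr (W.cl _ w) ∘ₗ W.push i := by
  obtain ⟨c, w, hw, hz⟩ := h
  refine ⟨c, w, hw, ?_⟩
  rw [hz, diagPlus, map_add, corr_add, cl_smul, corr_smul, W.cl_pull, corr_prodMap, W.cl_push,
    W.cl_fund]
  congr 2
  apply LinearMap.ext
  intro a
  rw [corr_diag, one_mul]
  rfl

/-- The linear algebra of a generic section. -/
structure Sec (W : WeilCohomology.{u, v} ops) (i : Y ⟶ Z) (E : Z.Cycles) : Prop where
  cyc : Z.IsCyc 1 E
  hl : HardLefschetz W Z E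
  gen : IsGenericSection W i E

namespace Sec

variable {E : Z.Cycles} (S : Sec W i E)

include S

lemma hs : HSec (W.gr Z) (W.gr Y) Y.dim (LinearMap.mulLeft W.K (W.cl Z E))
    (LinearMap.mulLeft W.K (W.cl Y (ops.pull i E))) (W.map i).toLinearMap (W.push i) :=
  hsec S.gen.dim S.cyc S.gen.cls S.hl S.gen.lef

/-- A correspondence of degree zero which kills the vanishing cohomology and preserves the
restrictions comes from a correspondence of degree `-1` on the ambient variety. -/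
lemma exists_amb {z : (Y.prod Y).Cycles} (hz : (Y.prod Y).IsCyc Y.dim z)
    (h0 : ∀ x ∈ vanishing W i, W.corr (W.cl _ z) x = 0)
    (h1 : ∀ a, ∃ b, W.corr (W.cl _ z) (W.map i a) = W.map i b) :
    ∃ A : Module.End W.K (W.H Z), QOp W Z Z (-1) A ∧
      W.corr (W.cl _ z) = (W.map i).toLinearMap ∘ₗ A ∘ₗ W.push i := by
  obtain ⟨c, w, hw, hc⟩ := corr_restr (S.gen.restr z hz ⟨0, fun x hx => by
    rw [act, h0 x hx, zero_smul]⟩ h1)
  obtain ⟨x, hx, hx0⟩ := (Submodule.ne_bot_iff _).1 S.gen.van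
  have h2 := h0 x hx
  have h3 : W.push i x = 0 := hx.2
  rw [hc, LinearMap.add_apply, LinearMap.comp_apply, LinearMap.comp_apply, h3, map_zero, map_zero,
    add_zero, LinearMap.smul_apply, Module.End.one_apply] at h2
  have h4 : (c : W.K) = 0 := (smul_eq_zero.1 h2).resolve_right hx0
  refine ⟨W.corr (W.cl _ w), QOp.gen (by rw [S.gen.dim]; push_cast; ring) hw, ?_⟩
  rw [hc, h4, zero_smul, zero_add]

/-- The basic computation: if the correspondence acts as `ε` on the restrictions of classes of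
degree `j ≤ dim Y` then `A L` acts as `ε` in degree `j`. -/
lemma left_inv {P : Module.End W.K (W.H Y)} {A : Module.End W.K (W.H Z)} (hA : QOp W Z Z (-1) A)
    (hP : P = (W.map i).toLinearMap ∘ₗ A ∘ₗ W.push i) {ε : W.K} {j : ℕ} (hj : j ≤ Y.dim)
    (h : ∀ b ∈ W.gr Y j, P b = ε • b) {a : W.H Z} (ha : a ∈ W.gr Z j) :
    A (W.cl Z E * a) = ε • a := by
  have hs := S.hs
  have h1 : W.map i (A (W.cl Z E * a)) = W.map i (ε • a) := by
    have h2 := h _ (hs.hι j a ha)
    rw [hP, LinearMap.comp_apply, LinearMap.comp_apply, hs.γι] at h2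
    rw [AlgHom.toLinearMap_apply] at h2
    rw [map_smul]
    exact h2
  rw [← sub_eq_zero]
  apply hs.ι_inj hj
  · apply Submodule.sub_mem _ _ (Submodule.smul_mem _ _ ha)
    have h3 : W.cl Z E * a ∈ W.gr Z (j + 2) := by
      have := W.mul_mem (W.cl_mem S.cyc) ha
      rwa [show 2 * 1 + j = j + 2 by ring] at this
    have h4 := KOp.isHom hA.kop ((j + 2 : ℕ) : ℤ) _ (by rw [grZ_natCast]; exact h3)
    rwa [show ((j + 2 : ℕ) : ℤ) + 2 * (-1) = (j : ℤ) by push_cast; ring, grZ_natCast] at h4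
  · rw [map_sub, AlgHom.toLinearMap_apply, AlgHom.toLinearMap_apply, h1, sub_self]

end Sec

end Pool.Agent.Y99.GH
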