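import Pool.Agent.Y99.GH.Two

/-!
# The conjecture C for a generic section
-/

open CategoryTheory AlgebraicGeometry Finset

universe u v

namespace Pool.Agent.Y99.GH

open Pool.Agent.H914 Pool.Agent.H447 Pool.Agent.H914.VarClass Pool.Agent.H914.VarClass.Obj
  Pool.Agent.H914.WeilCohomology Pool.Agent.W534 Pool.Agent.W550.B

variable {k : Type u} [Field k] {𝒱 : VarClass k} {ops : CycleOps 𝒱}
  {W : WeilCohomology.{u, v} ops} {X Y Z : 𝒱.Obj}

lemma kunnethAt_iff_rop {j : ℕ} : KunnethAt W X j ↔ ROp W X 0 (proj (W.isInternal X) j) := by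
  constructor
  · rintro ⟨z, hz, hz'⟩
    have h1 : W.corr (W.cl _ z) = proj (W.isInternal X) j := isProjTo_iff.1 hz'
    rw [← h1]
    exact rop_corr (by simp) hz
  · intro h
    obtain ⟨z, hz, hz'⟩ := exists_of_rop (p := X.dim) (by simp) h
    exact ⟨z, hz, isProjTo_iff.2 hz'⟩

/-- The dual of a Kunneth projector. -/
lemma rop_proj_dual {j : ℕ} (hj : j ≤ 2 * X.dim) (h : ROp W X 0 (proj (W.isInternal X) j)) :
    ROp W X 0 (proj (W.isInternal X) (2 * X.dim - j)) := by
  obtain ⟨ψ, hψ, hadj⟩ := (rop_iff.1 h).exists_adj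
  have h0 := W.isInternal X
  have h1 : ψ = proj h0 (2 * X.dim - j) := by
    apply gr_ext h0
    intro l b hb
    rw [← sub_eq_zero]
    apply nondeg_right
    intro a
    rw [mul_sub, map_sub, ← hadj, sub_eq_zero]
    refine gr_induction h0 (p := fun a => W.tr X (proj h0 j a * b) =
      W.tr X (a * proj h0 (2 * X.dim - j) b)) ?_ ?_ a
    · intro m a ha
      by_cases hm : m = j
      · subst hm
        rw [proj_same h0 ha]
        by_cases hl : l = 2 * X.dim - m
        · subst hl
          rw [proj_same h0 hb]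
        · rw [proj_ne h0 hb hl, mul_zero, map_zero]
          exact W.tr_eq_zero (W.mul_mem ha hb) (by omega)
      · rw [proj_ne h0 ha hm, zero_mul, map_zero]
        by_cases hl : l = 2 * X.dim - j
        · subst hl
          rw [proj_same h0 hb]
          exact (W.tr_eq_zero (W.mul_mem ha hb) (by omega)).symm
        · rw [proj_ne h0 hb hl, mul_zero, map_zero]
    · intro a a' ha ha'
      rw [map_add, add_mul, map_add, ha, ha', add_mul, map_add]
  rw [← h1]
  exact rop_iff.2 (hψ.cast (by ring))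

/-- All Kunneth projectors from those below the middle. -/
lemma kunneth_of_low (h : ∀ j < X.dim, KunnethAt W X j) : KunnethStd W X := by
  have h0 := W.isInternal X
  have hlow : ∀ j < X.dim, ROp W X 0 (proj h0 j) := fun j hj => kunnethAt_iff_rop.1 (h j hj)
  have hbig : ∀ j, j ≠ X.dim → ROp W X 0 (proj h0 j) := by
    intro j hj
    rcases lt_trichotomy j X.dim with h1 | h1 | h1
    · exact hlow j h1
    · exact absurd h1 hj
    by_cases h2 : j ≤ 2 * X.dim
    · have h3 := rop_proj_dual (W := W) (X := X) (j := 2 * X.dim - j) (by omega)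
        (hlow _ (by omega))
      rwa [show 2 * X.dim - (2 * X.dim - j) = j by omega] at h3
    · have : proj h0 j = 0 := by
        apply gr_ext h0
        intro l a ha
        by_cases hl : l = j
        · subst hl
          rw [W.gr_eq_bot X l (by omega)] at ha
          rw [(Submodule.mem_bot _).1 ha, map_zero, map_zero]
        · rw [proj_ne h0 ha hl, LinearMap.zero_apply]
      rw [this]
      exact rop_opAlg.zero 0
  apply kunneth_of_rop
  intro j
  by_cases hj : j = X.dim
  · subst hj
    have hsum := sum_proj h0 (N := 2 * X.dim + 1) (fun i hi => W.gr_eq_bot X i (by omega))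
    rw [← Finset.add_sum_erase _ _ (Finset.mem_range.2 (by omega : X.dim < 2 * X.dim + 1))]
      at hsum
    rw [eq_sub_of_add_eq hsum]
    exact rop_opAlg.sub rop_opAlg.one (rop_opAlg.sum fun l hl =>
      hbig l (Finset.ne_of_mem_erase hl))
  · exact hbig j hj

namespace Sec

variable {i : Y ⟶ Z} {E : Z.Cycles} (S : Sec W i E)

include S

/-- A Kunneth projector of the section below the middle gives the Kunneth projector of the ambient
variety and a left inverse of the cup product. -/
lemma kunneth_up {j : ℕ} (hj : j < Y.dim) (hK : KunnethAt W Y j) :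
    KunnethAt W Z j ∧ LeftInverse W Z E j := by
  have hs := S.hs
  have h0 := W.isInternal Z
  obtain ⟨z, hz, hz'⟩ := hK
  obtain ⟨A, hA, hP⟩ := S.exists_amb hz (by
    intro x hx
    rw [hz' _ _ hx.1, if_neg (by omega)]) (by
    intro a
    refine ⟨proj h0 j a, ?_⟩
    rw [isProjTo_iff.1 hz', map_proj])
  have hlow : ∀ l ≤ Y.dim, ∀ a ∈ W.gr Z l, A (W.cl Z E * a) = if l = j then a else 0 := by
    intro l hl a ha
    have h1 := S.left_inv hA hP hl (ε := if l = j then 1 else 0) (by
      intro b hb
      rw [hz' l b hb]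
      split_ifs
      · rw [one_smul]
      · rw [zero_smul]) ha
    rw [h1]
    split_ifs
    · rw [one_smul]
    · rw [zero_smul]
  have hhigh : ∀ l, Y.dim < l → ∀ a ∈ W.gr Z l, W.cl Z E * A (W.cl Z E * a) = 0 := by
    intro l hl a ha
    have e1 : W.map i (A (W.cl Z E * a)) = 0 := by
      have h2 := hz' l _ (W.map_mem i ha)
      rw [hP, if_neg (by omega), LinearMap.comp_apply, LinearMap.comp_apply] at h2
      have h3 : W.push i (W.map i a) = W.cl Z E * a := hs.γι a
      rw [h3] at h2
      exact h2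
    have h4 : W.push i (W.map i (A (W.cl Z E * a))) = W.cl Z E * A (W.cl Z E * a) := hs.γι _
    rw [← h4, e1, map_zero]
  constructor
  · rw [kunnethAt_iff_rop]
    set N : Module.End W.K (W.H Z) := A * LinearMap.mulLeft W.K (W.cl Z E) with hN
    have hNR : ROp W Z 0 N := rop_opAlg.cast
      (rop_opAlg.mul (rop_iff.2 hA) (rop_mulLeft (W := W) S.cyc)) (by ring)
    have h1 : proj h0 j = N * N := by
      apply gr_ext h0
      intro l a ha
      rw [Module.End.mul_apply]
      have hNa : ∀ b, N b = A (W.cl Z E * b) := fun b => rfl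
      by_cases hl : l ≤ Y.dim
      · rw [hNa, hNa, hlow l hl a ha]
        by_cases hlj : l = j
        · subst hlj
          rw [if_pos rfl, hlow l hl a ha, if_pos rfl, proj_same h0 ha]
        · rw [if_neg hlj, mul_zero, map_zero, proj_ne h0 ha hlj]
      · rw [hNa, hNa, hhigh l (by omega) a ha, map_zero, proj_ne h0 ha (by omega)]
    rw [h1]
    exact rop_mul0 hNR hNR
  · obtain ⟨w, hw, hwA⟩ := hA.exists_cyc (p := Z.dim - 1) (by rw [S.gen.dim]; push_cast; omega)
    refine ⟨w, hw, fun a ha => ?_⟩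
    rw [cup_one, act, hwA, hlow j hj.le a ha, if_pos rfl]

/-- The converse. -/
lemma kunneth_down {j : ℕ} (hj : j < Y.dim) (hK : KunnethAt W Z j) (hL : LeftInverse W Z E j) :
    KunnethAt W Y j := by
  have hs := S.hs
  have h0 := W.isInternal Y
  obtain ⟨w, hw, hw'⟩ := hL
  have hA : QOp W Z Z (-1) (W.corr (W.cl _ w)) :=
    QOp.gen (p := Z.dim - 1) (by rw [S.gen.dim]; push_cast; omega) hw
  rw [kunnethAt_iff_rop] at hK ⊢
  set P : Module.End W.K (W.H Y) := (W.map i).toLinearMap ∘ₗ
    (proj (W.isInternal Z) j ∘ₗ (W.corr (W.cl _ w) ∘ₗ W.push i)) with hP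
  have hPR : ROp W Y 0 P := by
    rw [rop_iff]
    exact (qop_pull i).comp ((rop_iff.1 hK).comp (hA.comp (qop_push i))) |>.cast (by
      rw [S.gen.dim]; push_cast; ring)
  have h1 : proj h0 j = P := by
    apply gr_ext h0
    intro l y hy
    have e1 : P y = W.map i (proj (W.isInternal Z) j (W.corr (W.cl _ w) (W.push i y))) := rfl
    have hm : W.corr (W.cl _ w) (W.push i y) ∈ W.gr Z l := by
      have h4 := KOp.isHom hA.kop ((l + 2 : ℕ) : ℤ) _ (by rw [grZ_natCast]; exact hs.hγ l y hy)
      rwa [show ((l + 2 : ℕ) : ℤ) + 2 * (-1) = (l : ℤ) by push_cast; ring, grZ_natCast] at h4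
    rw [e1]
    by_cases hl : l = j
    · subst hl
      obtain ⟨a, ha, hay⟩ := hs.surj l hj y hy
      have hay' : W.map i a = y := hay
      have h3 : W.push i (W.map i a) = W.cl Z E * a := hs.γι a
      have h4 := hw' a ha
      rw [cup_one, act] at h4
      rw [proj_same h0 hy, ← hay', h3, h4, proj_same _ ha]
    · rw [proj_ne h0 hy hl, proj_ne _ hm hl, map_zero]
  rw [h1]
  exact hPR

end Sec

/-- **The conjecture C for a generic section.** -/
theorem main_three {i : Y ⟶ Z} {E : Z.Cycles} (hE : IsLefschetzDivisor W Z E)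
    (hY : IsGenericSection W i E) :
    (∀ j < Y.dim, (KunnethOne W Y j ↔ KunnethOne W Z j ∧ LeftInverse W Z E j)) ∧
    ((∀ j, KunnethOne W Y j) ↔ ∀ j < Y.dim, KunnethOne W Z j ∧ LeftInverse W Z E j) := by
  have S : Sec W i E := ⟨hE.1, hE.2, hY⟩
  have h1 : ∀ j < Y.dim, (KunnethOne W Y j ↔ KunnethOne W Z j ∧ LeftInverse W Z E j) := by
    intro j hj
    rw [kunnethOne_iff, kunnethOne_iff]
    exact ⟨fun h => S.kunneth_up hj h, fun h => S.kunneth_down hj h.1 h.2⟩
  refine ⟨h1, fun h j hj => (h1 j hj).1 (h j), fun h j => ?_⟩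
  rw [kunnethOne_iff]
  exact kunneth_of_low (fun l hl => kunnethOne_iff.1 ((h1 l hl).2 (h l hl))) j

end Pool.Agent.Y99.GH
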