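import Pool.Agent.Y99.GH.Main
import Pool.Agent.Y99.GH.DefsTwo

/-!
# The conjecture B for `X` and one Kunneth projector of a generic section of `X × X`
-/

open CategoryTheory AlgebraicGeometry Finset

universe u v

namespace Pool.Agent.Y99.GH

open Pool.Agent.H914 Pool.Agent.H447 Pool.Agent.H914.VarClass Pool.Agent.H914.VarClass.Obj
  Pool.Agent.H914.WeilCohomology Pool.Agent.W534 Pool.Agent.W550.B Pool.Agent.W498.Dom

section lam

variable {K : Type*} [Field K] {V : Type*} [AddCommGroup V] [Module K V]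
  {gr : ℕ → Submodule K V} {n : ℕ} {L Lam : Module.End K V}

lemma lam_L (hL : IsHom gr 2 L) (hbd : ∀ i, 2 * n + 1 ≤ i → gr i = ⊥)
    (hHL : HardLef gr n L) (hLam : IsLam gr n L Lam) {i : ℕ} (hi : i < n) {a : V}
    (ha : a ∈ gr i) : Lam (L a) = a := by
  have key := lef_induction hL hbd hHL (p := fun i a => i < n → Lam (L a) = a)
    (by intro i a b ha hb h; rw [map_add, map_add, ha h, hb h])
    (by
      intro i hi a ha hp j hj
      rw [← Module.End.mul_apply L, ← pow_succ']
      exact (hLam i hi a ha hp).2 j (by omega))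
  have := key i hi.le a ha 0 (by omega)
  simpa using this

end lam

variable {k : Type u} [Field k] {𝒱 : VarClass k} {ops : CycleOps 𝒱}
  {W : WeilCohomology.{u, v} ops} {X Y Z : 𝒱.Obj}

lemma isHom_mul {D : X.Cycles} (hD : X.IsCyc 1 D) :
    IsHom (W.gr X) 2 (LinearMap.mulLeft W.K (W.cl X D)) := by
  simpa using rop_opAlg.hom (rop_mulLeft (W := W) hD)

lemma cup_apply (D : X.Cycles) (m : ℕ) (a : W.H X) : cup W X D m a = W.cl X D ^ m * a := rfl

lemma cup_one (D : X.Cycles) (a : W.H X) : cup W X D 1 a = W.cl X D * a := by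
  rw [cup_apply, pow_one]

lemma kunnethOne_iff {j : ℕ} : KunnethOne W Y j ↔ KunnethAt W Y j := by
  refine exists_congr fun z => and_congr_right fun _ => ?_
  change ProjectsOn (W.gr Y) (fun l => l = j) (act W z) ↔ IsProjTo (W.gr Y) j (act W z)
  refine forall_congr' fun l => forall_congr' fun a => forall_congr' fun _ => ?_
  by_cases h : l = j
  · simp [h]
  · simp [h]

lemma signConj_iff : SignConj W X ↔ SignStd W X := by
  refine exists_congr fun z => and_congr_right fun _ => ?_
  change ProjectsOn (W.gr X) Even (act W z) ↔ IsEvenProj (W.gr X) (act W z)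
  refine forall_congr' fun l => forall_congr' fun a => forall_congr' fun _ => ?_
  by_cases h : Even l
  · simp [h]
  · simp [h]

lemma sumDivisor_eq {D : X.Cycles} : sumDivisor ops D = boxSum ops D := rfl

lemma lefMotivic_of_lefschetzB {D : X.Cycles} (hD : X.IsCyc 1 D) (hHL : HardLefschetz W X D)
    (hB : LefschetzB W X D) : LefMotivic W X D := by
  have hLh := isHom_mul (W := W) hD
  intro n hn
  constructor
  · obtain ⟨Φ, hΦ, hLam⟩ := lefschetzB_iff_rop.1 hB
    have h1 : ROp W X (-((X.dim - n : ℕ) : ℤ)) (Φ ^ (X.dim - n)) :=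
      rop_opAlg.cast (rop_opAlg.pow hΦ (X.dim - n)) (by ring)
    obtain ⟨z, hz, hz'⟩ := exists_of_rop (p := n) (by omega) h1
    have h2 : ∀ a ∈ W.gr X n, act W z (W.cl X D ^ (X.dim - n) * a) = a := by
      intro a ha
      have h3 := lam_pow_L_pow hLh W_hbd hHL hLam (c := X.dim - n) (Nat.sub_le _ _) (a := a)
        (by rwa [show X.dim - (X.dim - n) = n by omega])
      rw [LinearMap.pow_mulLeft, LinearMap.mulLeft_apply] at h3
      rw [act, hz', h3]
    refine ⟨z, hz, h2, fun b hb => ?_⟩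
    obtain ⟨a, ha, rfl⟩ := (hHL n hn).2 b hb
    rw [LinearMap.pow_mulLeft, LinearMap.mulLeft_apply, h2 a ha, cup_apply]
  · obtain ⟨z, hz, hLam⟩ := hB
    refine ⟨z, hz, ?_, ?_⟩
    · intro a ha h0
      exact (hLam n hn a ha (by
        rw [LinearMap.pow_mulLeft, LinearMap.mulLeft_apply]
        exact h0)).1
    · intro j hj b hb
      rw [cup_one]
      exact lam_L hLh W_hbd hHL hLam (by omega) hb

lemma lefschetzB_of_lefIso {D : X.Cycles} (hD : X.IsCyc 1 D) (hHL : HardLefschetz W X D)
    (hA : ∀ n ≤ X.dim, LefIso W X D n) : LefschetzB W X D := by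
  apply lefschetzB_of_inj hD hHL
  intro c hc
  obtain ⟨z, hz, -, h2⟩ := hA (X.dim - c) (Nat.sub_le _ _)
  refine ⟨W.corr (W.cl _ z), KOp.gen (p := X.dim - c) (by omega) hz, fun a ha h0 => ?_⟩
  have h3 := h2 a (by rwa [show 2 * X.dim - (X.dim - c) = X.dim + c by omega])
  rw [act, h0, map_zero] at h3
  exact h3.symm

/-- **(a) and (b) for `X`, (b) for `X × X` in the middle degree.** -/
theorem main_two {D : X.Cycles} (hd : 1 ≤ X.dim) (hD : IsLefschetzDivisor W X D)
    (hS : SignStd W X) :
    List.TFAE [LefMotivic W X D,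
      PrimSplit W (X.prod X) (boxSum ops D) (2 * X.dim),
      LeftInverse W (X.prod X) (boxSum ops D) (2 * X.dim - 2)] := by
  have hE : (X.prod X).IsCyc 1 (boxSum ops D) := boxSum_mem hD.1
  have hHLE : HardLefschetz W (X.prod X) (boxSum ops D) :=
    hardLefschetz_prod hD.1 hD.1 hD.2 hD.2
  have hdim : (X.prod X).dim = 2 * X.dim := by rw [dim_prod]; ring
  tfae_have 1 → 2 := by
    intro h
    have hB := lefschetzB_of_lefIso hD.1 hD.2 fun n hn => (h n hn).1
    have h1 : Inj W X := inj_of_lefschetzB hD.1 hD.2 hB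
    have h2 : Inj W (X.prod X) := Inj.prod hD hD h1 h1
    have h3 := lefMotivic_of_lefschetzB hE hHLE (lefschetzB_of_inj hE hHLE h2)
      (2 * X.dim) hdim.ge
    exact h3.2
  tfae_have 2 → 3 := by
    rintro ⟨z, hz, -, h2⟩
    exact ⟨z, hz, h2 (2 * X.dim - 2) (by omega)⟩
  tfae_have 3 → 1 := by
    rintro ⟨z, hz, h2⟩
    have hB : LefschetzB W X D := by
      refine lefschetzB_of_left_sign hd hD.1 hD.2 hS
        (QOp.gen (p := (X.prod X).dim - 1) (by rw [hdim]; omega) hz) fun a ha => ?_
      have h3 := h2 a (by rwa [show 2 * (X.dim - 1) = 2 * X.dim - 2 by omega] at ha)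
      rwa [cup_one] at h3
    exact lefMotivic_of_lefschetzB hD.1 hD.2 hB
  tfae_finish

/-- **(a) and (b) for `X`, and one Kunneth projector of the section.** -/
theorem main_two' {D : X.Cycles} (hD : IsLefschetzDivisor W X D)
    (hS : SignStd W X) {i : Y ⟶ X.prod X} (hY : IsGenericSection W i (boxSum ops D)) :
    LefMotivic W X D ↔ KunnethAt W Y (2 * X.dim - 2) := by
  have S := sec_of_generic hD hY
  have hdY := S.dimY
  constructor
  · intro h
    have hB := lefschetzB_of_lefIso hD.1 hD.2 fun n hn => (h n hn).1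
    exact kunneth_of_lefschetzB (pull_mem_one S.cyc) S.hs.hl' (lefschetzB_sec hD S hB) _
  · intro h
    obtain ⟨A, hA, hA'⟩ := S.exists_left (j := 2 * X.dim - 2) (by omega) h
    have hB : LefschetzB W X D := by
      refine lefschetzB_of_left_sign (by omega) hD.1 hD.2 hS hA fun a ha => ?_
      rw [hA' _ (by omega) a ha, if_pos (by omega)]
    exact lefMotivic_of_lefschetzB hD.1 hD.2 hB

/-- **The statements together.** -/
theorem main_kunneth {D : X.Cycles} (hd : 1 ≤ X.dim) (hD : IsLefschetzDivisor W X D)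
    (hS : SignConj W X) :
    List.TFAE [LefMotivic W X D,
      PrimSplit W (X.prod X) (sumDivisor ops D) (2 * X.dim),
      LeftInverse W (X.prod X) (sumDivisor ops D) (2 * X.dim - 2)] ∧
    ∀ (Y : 𝒱.Obj) (i : Y ⟶ X.prod X), IsGenericSection W i (sumDivisor ops D) →
      (LefMotivic W X D ↔ KunnethOne W Y (2 * X.dim - 2)) :=
  ⟨main_two hd hD (signConj_iff.1 hS), fun _ _ hY =>
    (main_two' hD (signConj_iff.1 hS) hY).trans kunnethOne_iff.symm⟩

end Pool.Agent.Y99.GH
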