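import Pool.Agent.Y99.GH.Ku
import Pool.Agent.Y99.GH.Anti
import Pool.Agent.H578R3.MomC

/-!
# The conjecture B from the sign conjecture and a left inverse on the product
-/

open CategoryTheory AlgebraicGeometry Finset

universe u v

namespace Pool.Agent.Y99.GH

open Pool.Agent.H914 Pool.Agent.H447 Pool.Agent.H914.VarClass Pool.Agent.H914.VarClass.Obj
  Pool.Agent.H914.WeilCohomology Pool.Agent.W534

variable {k : Type u} [Field k] {𝒱 : VarClass k} {ops : CycleOps 𝒱}
  {W : WeilCohomology.{u, v} ops} {X Y Z : 𝒱.Obj}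

/-- Adjoints of correspondences with rational coefficients. -/
lemma _root_.Pool.Agent.W534.QOp.exists_adj {d : ℤ} {φ : W.H X →ₗ[W.K] W.H Y}
    (hφ : QOp W X Y d φ) : ∃ ψ, QOp W Y X (d + X.dim - Y.dim) ψ ∧
      ∀ a b, W.tr Y (φ a * b) = W.tr X (a * ψ b) := by
  rcases hφ with ⟨p, hp, z, hz, rfl⟩ | ⟨hd, rfl⟩
  · refine ⟨W.corr (W.cl _ (ops.pull (swap Y X) z)), QOp.gen (p := p) (by omega)
      (ops.pull_mem _ hz), fun a b => ?_⟩
    rw [W.cl_pull]
    exact tr_corr_swap (W.cl_mem hz) a b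
  · exact ⟨0, QOp.zero _, fun a b => by
      rw [LinearMap.zero_apply, LinearMap.zero_apply, zero_mul, mul_zero, map_zero, map_zero]⟩

/-- A left inverse in degree `2n - 2` gives surjectivity on numerically trivial classes. -/
lemma surj_num (hn : 1 ≤ X.dim) {D : X.Cycles} (hD : X.IsCyc 1 D)
    {A : Module.End W.K (W.H (X.prod X))} (hA : QOp W (X.prod X) (X.prod X) (-1) A)
    (hinv : ∀ a ∈ W.gr (X.prod X) (2 * (X.dim - 1)), A (W.cl _ (boxSum ops D) * a) = a)
    {y : Module.End W.K (W.H X)} (hy : NumR (W.isInternal X) (ROp W X) 1 y) :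
    ∃ y', NumR (W.isInternal X) (ROp W X) 0 y' ∧
      LinearMap.mulLeft W.K (W.cl X D) * y' + y' * LinearMap.mulLeft W.K (W.cl X D) = y := by
  obtain ⟨B, hB, hadj⟩ := hA.exists_adj
  obtain ⟨u, hu, rfl⟩ := exists_of_rop (p := X.dim + 1) (by push_cast; ring) hy.1
  obtain ⟨u', hu', hBu⟩ := (hB.cast (e := -1) (by ring)).exists_cl (p := X.dim + 1) (q := X.dim)
    (by push_cast; ring) hu
  have hE := W.cl_mem (boxSum_mem (ops := ops) hD)
  have hEc : W.cl _ (boxSum ops D) * W.cl _ u' = W.cl _ u := by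
    rw [← sub_eq_zero]
    apply nondeg_right
    intro b
    rw [mul_sub, map_sub, sub_eq_zero]
    refine gr_induction (W.isInternal (X.prod X)) (p := fun b =>
      W.tr (X.prod X) (b * (W.cl _ (boxSum ops D) * W.cl _ u')) =
        W.tr (X.prod X) (b * W.cl _ u)) ?_ ?_ b
    · intro l b hb
      by_cases hl : l = 2 * (X.dim - 1)
      · subst hl
        rw [← hBu, ← mul_assoc, ← W.even_comm hE, ← hadj, hinv b hb]
      · rw [W.tr_eq_zero (W.mul_mem hb (W.mul_mem hE (W.cl_mem hu'))) (by rw [dim_prod]; omega),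
          W.tr_eq_zero (W.mul_mem hb (W.cl_mem hu)) (by rw [dim_prod]; omega)]
    · intro b b' hb hb'
      rw [add_mul, add_mul, map_add, map_add, hb, hb']
  refine ⟨W.corr (W.cl _ u'), ⟨rop_corr (by simp) hu', ?_⟩, ?_⟩
  · intro r hr
    obtain ⟨v, hv, rfl⟩ := exists_of_rop (p := X.dim) (by simp) hr
    have e1 := tr_mul_eq_trace (W.cl_mem hu') (W.map (swap X X) (W.cl _ v))
    rw [map_swap_swap, mul_assoc] at e1
    obtain ⟨v', hv', hAv⟩ := hA.exists_cl (p := X.dim) (q := X.dim - 1) (by omega)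
      (ops.pull_mem (swap X X) hv)
    have e2 := tr_mul_eq_trace (W.cl_mem hu) (W.cl _ v')
    have e3 := hy.2 (W.corr (W.map (swap X X) (W.cl _ v'))) (by
      rw [← W.cl_pull]
      exact rop_corr (by omega) (ops.pull_mem _ hv'))
    rw [mul_assoc, e3] at e2
    rw [← e1, W.even_comm (W.cl_mem hu'), ← hBu, ← hadj, ← W.cl_pull, hAv,
      W.even_comm (W.cl_mem hv'), e2]
  · have h1 := corr_boxSum (W := W) hD (W.cl _ u')
    rw [hEc, dbl_apply] at h1
    exact h1.symm

/-- **The conjecture B from the sign conjecture and a left inverse in one degree.** -/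
theorem lefschetzB_of_left_sign (hn : 1 ≤ X.dim) {D : X.Cycles} (hD : X.IsCyc 1 D)
    (hHL : HardLefschetz W X D) (hS : SignStd W X)
    {A : Module.End W.K (W.H (X.prod X))} (hA : QOp W (X.prod X) (X.prod X) (-1) A)
    (hinv : ∀ a ∈ W.gr (X.prod X) (2 * (X.dim - 1)), A (W.cl _ (boxSum ops D) * a) = a) :
    LefschetzB W X D := by
  have h := W.isInternal X
  have hLR : ROp W X 1 (LinearMap.mulLeft W.K (W.cl X D)) := rop_mulLeft (W := W) hD
  have hLh : IsHom (W.gr X) 2 (LinearMap.mulLeft W.K (W.cl X D)) := by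
    simpa using rop_opAlg.hom hLR
  have hOA := rop_opAlg (W := W) (X := X)
  obtain ⟨f, t, hf, -⟩ := exists_sl2 h hLh W_hbd hHL
  obtain ⟨z, hz, hnil⟩ := nilp_of_surj hOA h W_hbd hLR (par_rop_of_sign hS) t
    (fun x y hx hy => rop_str _ (hOA.cast (hOA.mul hx hy) (by ring)))
    (fun y hy => surj_num hn hD hA hinv hy)
  exact Pool.Agent.H578R3.Mom.lefschetzB_of_nilp hD hHL hz hnil

namespace Sec

variable {D : X.Cycles} {i : Y ⟶ X.prod X} (S : Sec W i (boxSum ops D))

include S

lemma odd_dim : ¬ Even Y.dim := by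
  intro h1
  have h2 := h1.add_one
  rw [S.dimY] at h2
  exact (Nat.not_even_iff_odd.2 h2) (even_two_mul _)

/-- The sign conjecture for `X` from the sign conjecture for the generic section of `X × X`. -/
lemma sign_base (hD : X.IsCyc 1 D) (hHL : HardLefschetz W X D) (hS : SignStd W Y) :
    SignStd W X := by
  have h := W.isInternal X
  have hdim := S.dimY
  have htop := rop_proj_top hD hHL
  obtain ⟨A, hA, hA'⟩ := S.exists_left_even S.odd_dim hS
  set Q : Module.End W.K (W.H X) := (W.map (diag X)).toLinearMap ∘ₗ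
    (A ∘ₗ LinearMap.mulLeft W.K (W.cl _ (boxSum ops D))) ∘ₗ (W.map (fst X X)).toLinearMap with hQ
  have hQR : ROp W X 0 Q := by
    rw [rop_iff]
    have h1 : QOp W (X.prod X) (X.prod X) 0
        (A ∘ₗ LinearMap.mulLeft W.K (W.cl _ (boxSum ops D))) :=
      (hA.comp (rop_iff.1 (rop_mulLeft (boxSum_mem hD)))).cast (by ring)
    exact ((qop_pull (diag X)).comp (h1.comp (qop_pull (fst X X)))).cast (by ring)
  have h1 : evenProj h = Q * (1 - proj h (2 * X.dim)) + proj h (2 * X.dim) := by
    apply gr_ext h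
    intro l a ha
    rw [LinearMap.add_apply, Module.End.mul_apply, LinearMap.sub_apply, Module.End.one_apply,
      evenProj, scal_apply h _ ha]
    by_cases hl : l = 2 * X.dim
    · subst hl
      rw [proj_same h ha, sub_self, map_zero, if_pos (even_two_mul _), one_smul, zero_add]
    · rw [proj_ne h ha hl, sub_zero, add_zero]
      by_cases hl2 : l ≤ Y.dim
      · have h2 := hA' l hl2 _ (W.map_mem (fst X X) ha)
        have h3 : Q a = W.map (diag X) (A (W.cl _ (boxSum ops D) * W.map (fst X X) a)) := rfl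
        rw [h3, h2]
        by_cases hlj : Even l
        · rw [if_pos hlj, if_pos hlj, ← W.map_comp]
          have e2 : diag X ≫ fst X X = 𝟙 X := Obj.lift_fst _ _
          rw [e2, W.map_id, one_smul]
        · rw [if_neg hlj, if_neg hlj, map_zero, zero_smul]
      · rw [W.gr_eq_bot X l (by omega)] at ha
        rw [(Submodule.mem_bot _).1 ha, map_zero, smul_zero]
  have h2 : ROp W X 0 (evenProj h) := by
    rw [h1]
    exact rop_opAlg.add (rop_mul0 hQR (rop_opAlg.sub rop_opAlg.one htop)) htop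
  obtain ⟨P, hP, hP'⟩ := exists_of_rop (p := X.dim) (by simp) h2
  exact ⟨P, hP, isEvenProj_iff.2 hP'⟩

/-- **The conjecture B for `X` from the sign conjecture for the generic section.** -/
theorem lefschetzB_of_sign' (hD : X.IsCyc 1 D) (hHL : HardLefschetz W X D) (hS : SignStd W Y) :
    LefschetzB W X D := by
  have hdim := S.dimY
  obtain ⟨A, hA, hA'⟩ := S.exists_left_even S.odd_dim hS
  refine lefschetzB_of_left_sign (by omega) hD hHL (S.sign_base hD hHL hS) hA fun a ha => ?_
  rw [hA' _ (by omega) a ha, if_pos (even_two_mul _)]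

end Sec

end Pool.Agent.Y99.GH
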